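import Pool.Agent.Helper7.ES.N1

/-!
# ES: quadruples of rough numbers
-/

set_option autoImplicit false

open Set Filter Topology
open Pool.Agent.Helper69.PP (RF)

namespace Pool.Agent.Helper7.ES

/-- Sums over codes. -/
lemma sum_code {ι κ : Type*} [DecidableEq κ] (S : Finset ι) (T : Finset κ) (g : ι → κ) (M : ℕ) (hg : ∀ i ∈ S, g i ∈ T)
    (hM : ∀ c ∈ T, (S.filter (fun i => g i = c)).card ≤ M) (f : κ → ℝ) (hf : ∀ c ∈ T, 0 ≤ f c) :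
    ∑ i ∈ S, f (g i) ≤ M * ∑ c ∈ T, f c := by
  rw [← Finset.sum_fiberwise_of_maps_to hg, Finset.mul_sum]
  refine Finset.sum_le_sum fun c hc => ?_
  have h1 : ∑ i ∈ S.filter (fun i => g i = c), f (g i) = (S.filter (fun i => g i = c)).card * f c := by
    rw [Finset.sum_congr rfl (g := fun _ => f c) (fun i hi => by rw [(Finset.mem_filter.1 hi).2]), Finset.sum_const, nsmul_eq_mul]
  rw [h1]
  exact mul_le_mul_of_nonneg_right (by exact_mod_cast hM c hc) (hf c hc)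

/-- The solutions of `d B' = B d'`. -/
lemma quad_facts {d B d' B' : ℕ} (hd : 0 < d) (hd' : 0 < d') (h : d * B' = B * d') :
    d' = Nat.gcd d' B' * (d / Nat.gcd d B) ∧ B' = Nat.gcd d' B' * (B / Nat.gcd d B) := by
  have hg : 0 < Nat.gcd d B := Nat.gcd_pos_of_pos_left _ hd
  have hh : 0 < Nat.gcd d' B' := Nat.gcd_pos_of_pos_left _ hd'
  have c1 := Nat.coprime_div_gcd_div_gcd hg
  have c2 := Nat.coprime_div_gcd_div_gcd hh
  have e1 := Nat.mul_div_cancel' (Nat.gcd_dvd_left d B)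
  have e2 := Nat.mul_div_cancel' (Nat.gcd_dvd_right d B)
  have e3 := Nat.mul_div_cancel' (Nat.gcd_dvd_left d' B')
  have e4 := Nat.mul_div_cancel' (Nat.gcd_dvd_right d' B')
  generalize hga : Nat.gcd d B = g at *
  generalize hha : Nat.gcd d' B' = k at *
  generalize d / g = u at *
  generalize B / g = v at *
  generalize d' / k = u' at *
  generalize B' / k = v' at *
  have e5 : u * v' = v * u' := by
    have h1 : (g * k) * (u * v') = (g * k) * (v * u') := by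
      calc (g * k) * (u * v') = (g * u) * (k * v') := by ring
        _ = d * B' := by rw [e1, e4]
        _ = B * d' := h
        _ = (g * v) * (k * u') := by rw [e2, e3]
        _ = (g * k) * (v * u') := by ring
    exact Nat.eq_of_mul_eq_mul_left (Nat.mul_pos hg hh) h1
  have hu : u = u' := by
    apply Nat.dvd_antisymm
    · exact c1.dvd_of_dvd_mul_left (e5 ▸ Dvd.intro _ rfl)
    · have h1 : u' ∣ u * v' := e5 ▸ Dvd.intro_left _ rfl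
      exact c2.dvd_of_dvd_mul_right h1
  have hu0 : 0 < u := by
    rcases Nat.eq_zero_or_pos u with h0 | h0
    · rw [h0, mul_zero] at e1
      omega
    · exact h0
  have hv : v = v' := by
    rw [← hu, mul_comm v u] at e5
    exact (Nat.eq_of_mul_eq_mul_left hu0 e5).symm
  exact ⟨by rw [hu, e3], by rw [hv, e4]⟩

open Classical in
lemma quad (R : Finset ℕ) (hR0 : ∀ n ∈ R, 0 < n) (hRd : ∀ n ∈ R, ∀ m, m ∣ n → m ∈ R) (P : ℕ → ℕ → Prop)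
    (hP : ∀ g u v : ℕ, 0 < g → 0 < u → 0 < v → P (g * u) (g * v) → P u v) :
    ∑ w ∈ ((R ×ˢ R) ×ˢ (R ×ˢ R)).filter (fun w => w.1.1 * w.2.2 = w.1.2 * w.2.1 ∧ P w.1.1 w.1.2),
      1 / Real.sqrt ((w.1.1 : ℝ) * w.1.2) * (1 / Real.sqrt ((w.2.1 : ℝ) * w.2.2)) ≤
    (∑ n ∈ R, 1 / (n : ℝ)) * (∑ n ∈ R, 1 / (n : ℝ)) *
      ∑ w ∈ (R ×ˢ R).filter (fun w => P w.1 w.2), 1 / ((w.1 : ℝ) * w.2) := by
  set S := ((R ×ˢ R) ×ˢ (R ×ˢ R)).filter (fun w => w.1.1 * w.2.2 = w.1.2 * w.2.1 ∧ P w.1.1 w.1.2) with hS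
  set φ : (ℕ × ℕ) × (ℕ × ℕ) → (ℕ × ℕ) × (ℕ × ℕ) := fun w =>
    ((Nat.gcd w.1.1 w.1.2, Nat.gcd w.2.1 w.2.2), (w.1.1 / Nat.gcd w.1.1 w.1.2, w.1.2 / Nat.gcd w.1.1 w.1.2)) with hφ
  set F : (ℕ × ℕ) × (ℕ × ℕ) → ℝ := fun c => 1 / (c.1.1 : ℝ) * (1 / (c.1.2 : ℝ)) * (1 / ((c.2.1 : ℝ) * c.2.2)) with hF
  have hSm : ∀ w ∈ S, w.1.1 ∈ R ∧ w.1.2 ∈ R ∧ w.2.1 ∈ R ∧ w.2.2 ∈ R ∧ w.1.1 * w.2.2 = w.1.2 * w.2.1 ∧ P w.1.1 w.1.2 := by
    intro w hw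
    rw [hS, Finset.mem_filter, Finset.mem_product, Finset.mem_product, Finset.mem_product] at hw
    exact ⟨hw.1.1.1, hw.1.1.2, hw.1.2.1, hw.1.2.2, hw.2.1, hw.2.2⟩
  have hfac : ∀ w ∈ S, w.1.1 = (φ w).1.1 * (φ w).2.1 ∧ w.1.2 = (φ w).1.1 * (φ w).2.2 ∧
      w.2.1 = (φ w).1.2 * (φ w).2.1 ∧ w.2.2 = (φ w).1.2 * (φ w).2.2 := by
    intro w hw
    obtain ⟨a1, a2, a3, a4, a5, _⟩ := hSm w hw
    obtain ⟨b1, b2⟩ := quad_facts (hR0 _ a1) (hR0 _ a3) a5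
    exact ⟨(Nat.mul_div_cancel' (Nat.gcd_dvd_left _ _)).symm, (Nat.mul_div_cancel' (Nat.gcd_dvd_right _ _)).symm, b1, b2⟩
  have hpos : ∀ w ∈ S, 0 < (φ w).1.1 ∧ 0 < (φ w).1.2 ∧ 0 < (φ w).2.1 ∧ 0 < (φ w).2.2 := by
    intro w hw
    obtain ⟨a1, a2, a3, a4, a5, _⟩ := hSm w hw
    obtain ⟨b1, b2, b3, b4⟩ := hfac w hw
    have c1 := hR0 _ a1
    have c2 := hR0 _ a2
    have c3 := hR0 _ a3
    rw [b1] at c1
    rw [b2] at c2
    rw [b3] at c3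
    exact ⟨Nat.pos_of_mul_pos_right c1, Nat.pos_of_mul_pos_right c3, Nat.pos_of_mul_pos_left c1, Nat.pos_of_mul_pos_left c2⟩
  have hterm : ∀ w ∈ S, 1 / Real.sqrt ((w.1.1 : ℝ) * w.1.2) * (1 / Real.sqrt ((w.2.1 : ℝ) * w.2.2)) = F (φ w) := by
    intro w hw
    obtain ⟨b1, b2, b3, b4⟩ := hfac w hw
    obtain ⟨p1, p2, p3, p4⟩ := hpos w hw
    have q1 : (0:ℝ) < (φ w).1.1 := by exact_mod_cast p1
    have q2 : (0:ℝ) < (φ w).1.2 := by exact_mod_cast p2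
    have q3 : (0:ℝ) < (φ w).2.1 := by exact_mod_cast p3
    have q4 : (0:ℝ) < (φ w).2.2 := by exact_mod_cast p4
    have r1 : (w.1.1 : ℝ) = (φ w).1.1 * (φ w).2.1 := by exact_mod_cast b1
    have r2 : (w.1.2 : ℝ) = (φ w).1.1 * (φ w).2.2 := by exact_mod_cast b2
    have r3 : (w.2.1 : ℝ) = (φ w).1.2 * (φ w).2.1 := by exact_mod_cast b3
    have r4 : (w.2.2 : ℝ) = (φ w).1.2 * (φ w).2.2 := by exact_mod_cast b4
    rw [r1, r2, r3, r4]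
    simp only [hF]
    generalize ((φ w).1.1 : ℝ) = g at *
    generalize ((φ w).1.2 : ℝ) = k at *
    generalize ((φ w).2.1 : ℝ) = u at *
    generalize ((φ w).2.2 : ℝ) = v at *
    have hs : ∀ a : ℝ, 0 < a → Real.sqrt (a * u * (a * v)) = a * Real.sqrt (u * v) := by
      intro a ha
      rw [show a * u * (a * v) = a ^ 2 * (u * v) by ring, Real.sqrt_mul (by positivity) (u * v), Real.sqrt_sq ha.le]
    rw [hs g q1, hs k q2]
    have h5 : Real.sqrt (u * v) * Real.sqrt (u * v) = u * v := Real.mul_self_sqrt (by positivity)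
    have h6 : 0 < Real.sqrt (u * v) := Real.sqrt_pos.2 (by positivity)
    rw [div_mul_div_comm, div_mul_div_comm, div_mul_div_comm]
    congr 1
    · ring
    · calc g * Real.sqrt (u * v) * (k * Real.sqrt (u * v)) = g * k * (Real.sqrt (u * v) * Real.sqrt (u * v)) := by ring
        _ = g * k * (u * v) := by rw [h5]
  have hmaps : ∀ w ∈ S, φ w ∈ (R ×ˢ R) ×ˢ ((R ×ˢ R).filter (fun w => P w.1 w.2)) := by
    intro w hw
    obtain ⟨a1, a2, a3, a4, a5, a6⟩ := hSm w hw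
    obtain ⟨b1, b2, b3, b4⟩ := hfac w hw
    obtain ⟨p1, p2, p3, p4⟩ := hpos w hw
    rw [Finset.mem_product, Finset.mem_product, Finset.mem_filter, Finset.mem_product]
    refine ⟨⟨hRd _ a1 _ (Nat.gcd_dvd_left _ _), hRd _ a3 _ (Nat.gcd_dvd_left _ _)⟩,
      ⟨hRd _ a1 _ ⟨_, b1.trans (mul_comm _ _)⟩, hRd _ a2 _ ⟨_, b2.trans (mul_comm _ _)⟩⟩, ?_⟩
    rw [b1, b2] at a6
    exact hP _ _ _ p1 p3 p4 a6
  have hinj : ∀ c ∈ (R ×ˢ R) ×ˢ ((R ×ˢ R).filter (fun w => P w.1 w.2)), (S.filter (fun w => φ w = c)).card ≤ 1 := by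
    intro c _
    rw [Finset.card_le_one]
    intro w hw w' hw'
    rw [Finset.mem_filter] at hw hw'
    obtain ⟨b1, b2, b3, b4⟩ := hfac w hw.1
    obtain ⟨c1, c2, c3, c4⟩ := hfac w' hw'.1
    rw [hw.2] at b1 b2 b3 b4
    rw [hw'.2] at c1 c2 c3 c4
    exact Prod.ext (Prod.ext (b1.trans c1.symm) (b2.trans c2.symm)) (Prod.ext (b3.trans c3.symm) (b4.trans c4.symm))
  rw [Finset.sum_congr rfl hterm]
  refine (sum_code S _ φ 1 hmaps hinj F (fun c _ => by simp only [hF]; positivity)).trans (le_of_eq ?_)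
  rw [Nat.cast_one, one_mul, Finset.sum_product, Finset.sum_mul_sum, Finset.sum_product, Finset.sum_mul]
  refine Finset.sum_congr rfl fun a _ => ?_
  rw [Finset.sum_mul]
  refine Finset.sum_congr rfl fun b _ => ?_
  rw [Finset.mul_sum]

open Classical in
lemma quad2 (R : Finset ℕ) (hR0 : ∀ n ∈ R, 0 < n) (hRd : ∀ n ∈ R, ∀ m, m ∣ n → m ∈ R) (P : ℕ → ℕ → Prop)
    (hP : ∀ g u v : ℕ, 0 < g → 0 < u → 0 < v → P (g * u) (g * v) → P u v) :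
    ∑ w ∈ ((R ×ˢ R) ×ˢ (R ×ˢ R)).filter (fun w => (w.1.1 * w.2.2 = w.1.2 * w.2.1 ∨ w.1.1 * w.2.1 = w.1.2 * w.2.2) ∧
        P w.1.1 w.1.2),
      1 / Real.sqrt ((w.1.1 : ℝ) * w.1.2) * (1 / Real.sqrt ((w.2.1 : ℝ) * w.2.2)) ≤
    2 * ((∑ n ∈ R, 1 / (n : ℝ)) * (∑ n ∈ R, 1 / (n : ℝ)) *
      ∑ w ∈ (R ×ˢ R).filter (fun w => P w.1 w.2), 1 / ((w.1 : ℝ) * w.2)) := by
  have h1 := quad R hR0 hRd P hP
  have hnn : ∀ w : (ℕ × ℕ) × (ℕ × ℕ), 0 ≤ 1 / Real.sqrt ((w.1.1 : ℝ) * w.1.2) * (1 / Real.sqrt ((w.2.1 : ℝ) * w.2.2)) :=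
    fun w => by positivity
  set A := ((R ×ˢ R) ×ˢ (R ×ˢ R)).filter (fun w => w.1.1 * w.2.2 = w.1.2 * w.2.1 ∧ P w.1.1 w.1.2) with hA
  set B := ((R ×ˢ R) ×ˢ (R ×ˢ R)).filter (fun w => w.1.1 * w.2.1 = w.1.2 * w.2.2 ∧ P w.1.1 w.1.2) with hB
  have h2 : ∑ w ∈ B, 1 / Real.sqrt ((w.1.1 : ℝ) * w.1.2) * (1 / Real.sqrt ((w.2.1 : ℝ) * w.2.2)) =
      ∑ w ∈ A, 1 / Real.sqrt ((w.1.1 : ℝ) * w.1.2) * (1 / Real.sqrt ((w.2.1 : ℝ) * w.2.2)) := by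
    refine Finset.sum_nbij' (fun w => (w.1, w.2.swap)) (fun w => (w.1, w.2.swap)) ?_ ?_ ?_ ?_ ?_
    · intro w hw
      simp only [hA, hB, Finset.mem_filter, Finset.mem_product, Prod.fst_swap, Prod.snd_swap] at hw ⊢
      exact ⟨⟨hw.1.1, hw.1.2.2, hw.1.2.1⟩, hw.2⟩
    · intro w hw
      simp only [hA, hB, Finset.mem_filter, Finset.mem_product, Prod.fst_swap, Prod.snd_swap] at hw ⊢
      exact ⟨⟨hw.1.1, hw.1.2.2, hw.1.2.1⟩, hw.2⟩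
    · intro w _
      simp
    · intro w _
      simp
    · intro w _
      simp only [Prod.fst_swap, Prod.snd_swap]
      rw [mul_comm (w.2.1 : ℝ)]
  calc _ ≤ ∑ w ∈ A ∪ B, 1 / Real.sqrt ((w.1.1 : ℝ) * w.1.2) * (1 / Real.sqrt ((w.2.1 : ℝ) * w.2.2)) := by
        refine Finset.sum_le_sum_of_subset_of_nonneg ?_ fun w _ _ => hnn w
        intro w hw
        rw [Finset.mem_filter] at hw
        rw [Finset.mem_union, hA, hB, Finset.mem_filter, Finset.mem_filter]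
        rcases hw.2.1 with h | h
        · exact Or.inl ⟨hw.1, h, hw.2.2⟩
        · exact Or.inr ⟨hw.1, h, hw.2.2⟩
    _ ≤ ∑ w ∈ A, 1 / Real.sqrt ((w.1.1 : ℝ) * w.1.2) * (1 / Real.sqrt ((w.2.1 : ℝ) * w.2.2)) +
          ∑ w ∈ B, 1 / Real.sqrt ((w.1.1 : ℝ) * w.1.2) * (1 / Real.sqrt ((w.2.1 : ℝ) * w.2.2)) := by
        rw [← Finset.sum_union_inter]
        have : 0 ≤ ∑ w ∈ A ∩ B, 1 / Real.sqrt ((w.1.1 : ℝ) * w.1.2) * (1 / Real.sqrt ((w.2.1 : ℝ) * w.2.2)) :=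
          Finset.sum_nonneg fun w _ => hnn w
        linarith
    _ ≤ _ := by
        rw [h2]
        linarith

end Pool.Agent.Helper7.ES
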