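import Pool.Agent.Helper7.ES.N2
import Pool.Agent.Helper7.ES.N3a

/-!
# ES: N3, the diagonal at the small frequencies
-/

open MeasureTheory Set Filter Topology
open Pool.Agent.Helper57.Zeta Pool.Agent.Helper57.PC Pool.Agent.Helper57.LH Pool.Agent.Helper78.SG
open Pool.Agent.Helper4.SH Pool.Agent.Helper69.PP Pool.Agent.Helper22.SI
open Pool.Agent.Helper69.SM (wt)
open Pool.Agent.Helper69.ES
open Pool.Agent.Helper69
open scoped Interval

namespace Pool.Agent.Helper7.ES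

lemma RG_pos {δ T Y : ℝ} {n : ℕ} (hn : n ∈ RG δ T Y) : 0 < n := (mem_RG.1 hn).1

lemma RG_dvd {δ T Y : ℝ} {n m : ℕ} (hn : n ∈ RG δ T Y) (h : m ∣ n) : m ∈ RG δ T Y := by
  obtain ⟨h1, h2, h3⟩ := mem_RG.1 hn
  have hm : 0 < m := Nat.pos_of_dvd_of_pos h h1
  exact mem_RG.2 ⟨hm, (Nat.le_of_dvd h1 h).trans h2, fun p hp => h3 p (Nat.primeFactors_mono h (by omega) hp)⟩

open Classical in
lemma quad_sum {δ : ℝ} (hδ : 0 < δ) : ∃ C : ℝ, 0 < C ∧ ∀ᶠ U : ℝ in atTop, ∀ θ : ℝ, 0 ≤ θ → ∀ z : ℝ,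
    ∑ w ∈ ((RG δ U (U ^ (4 : ℝ)) ×ˢ RG δ U (U ^ (4 : ℝ))) ×ˢ (RG δ U (U ^ (4 : ℝ)) ×ˢ RG δ U (U ^ (4 : ℝ)))).filter
        (fun w => (w.1.1 * w.2.2 = w.1.2 * w.2.1 ∨ w.1.1 * w.2.1 = w.1.2 * w.2.2) ∧
          (¬ (z = 0 ∧ w.1.1 = w.1.2) ∧ |Real.log w.1.1 - Real.log w.1.2 + z| ≤ θ * Real.log U)),
      1 / Real.sqrt ((w.1.1 : ℝ) * w.1.2) * (1 / Real.sqrt ((w.2.1 : ℝ) * w.2.2)) ≤
    C * (θ + 1 / Real.log U + (if z ≠ 0 ∧ |z| ≤ θ * Real.log U then 1 else 0)) := by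
  obtain ⟨C1, hC1, h1⟩ := rough_sum hδ
  obtain ⟨C2, hC2, h2⟩ := rough_pair hδ
  refine ⟨2 * (C1 * C1 * (C2 + 1)), by positivity, ?_⟩
  filter_upwards [h1, h2, eventually_gt_atTop (1:ℝ)] with U hU1 hU2 hU θ hθ z
  have hL : 0 < Real.log U := Real.log_pos hU
  set R := RG δ U (U ^ (4 : ℝ)) with hR
  set I : ℝ := if z ≠ 0 ∧ |z| ≤ θ * Real.log U then 1 else 0 with hI
  have hI0 : 0 ≤ I := by
    rw [hI]
    split_ifs <;> norm_num
  have hX : 0 ≤ θ + 1 / Real.log U := by positivity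
  have h3 := quad2 R (fun n hn => RG_pos hn) (fun n hn m hm => RG_dvd hn hm)
    (fun a b => ¬ (z = 0 ∧ a = b) ∧ |Real.log a - Real.log b + z| ≤ θ * Real.log U) (by
      intro g u v hg hu hv h
      have hg' : (g : ℝ) ≠ 0 := by exact_mod_cast hg.ne'
      have hu' : (u : ℝ) ≠ 0 := by exact_mod_cast hu.ne'
      have hv' : (v : ℝ) ≠ 0 := by exact_mod_cast hv.ne'
      refine ⟨fun h0 => h.1 ⟨h0.1, by rw [h0.2]⟩, ?_⟩
      have h5 := h.2
      push_cast at h5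
      rw [Real.log_mul hg' hu', Real.log_mul hg' hv'] at h5
      have h6 : Real.log g + Real.log u - (Real.log g + Real.log v) + z = Real.log u - Real.log v + z := by ring
      rwa [h6] at h5)
  refine le_trans (le_of_eq (Finset.sum_congr (Finset.ext fun w => ?_) fun _ _ => rfl)) (h3.trans ?_)
  · simp only [Finset.mem_filter]
  have hA0 : 0 ≤ ∑ n ∈ R, 1 / (n : ℝ) := Finset.sum_nonneg fun _ _ => by positivity
  have h4 : (∑ n ∈ R, 1 / (n : ℝ)) * (∑ n ∈ R, 1 / (n : ℝ)) ≤ C1 * C1 := mul_le_mul hU1 hU1 hA0 hC1.le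
  have h5 : ∑ w ∈ (R ×ˢ R).filter (fun w => ¬ (z = 0 ∧ w.1 = w.2) ∧ |Real.log w.1 - Real.log w.2 + z| ≤ θ * Real.log U),
      1 / ((w.1 : ℝ) * w.2) ≤ (C2 + 1) * (θ + 1 / Real.log U + I) := by
    have h6 := hU2 θ hθ z
    rw [← Finset.sum_product' (f := fun u v : ℕ => if ¬ (u = 1 ∧ v = 1) ∧ |Real.log u - Real.log v + z| ≤ θ * Real.log U
      then 1 / ((u : ℝ) * v) else 0)] at h6
    have h7 : ∑ w ∈ (R ×ˢ R).filter (fun w => ¬ (z = 0 ∧ w.1 = w.2) ∧ |Real.log w.1 - Real.log w.2 + z| ≤ θ * Real.log U),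
        1 / ((w.1 : ℝ) * w.2) ≤ ∑ w ∈ R ×ˢ R, ((if ¬ (w.1 = 1 ∧ w.2 = 1) ∧ |Real.log w.1 - Real.log w.2 + z| ≤ θ * Real.log U
          then 1 / ((w.1 : ℝ) * w.2) else 0) + (if w = (1, 1) then I else 0)) := by
      rw [Finset.sum_filter]
      refine Finset.sum_le_sum fun w _ => ?_
      by_cases hw : w = (1, 1)
      · rw [hw]
        simp only [Nat.cast_one, Real.log_one, sub_zero, zero_add, and_self, not_true, false_and, if_false, if_true,
          mul_one, div_one, and_true]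
        rw [hI]
      · have hw' : ¬ (w.1 = 1 ∧ w.2 = 1) := fun h => hw (Prod.ext h.1 h.2)
        rw [if_neg hw, add_zero]
        have e1 : (if ¬ (w.1 = 1 ∧ w.2 = 1) ∧ |Real.log w.1 - Real.log w.2 + z| ≤ θ * Real.log U
            then 1 / ((w.1 : ℝ) * w.2) else 0) = if |Real.log w.1 - Real.log w.2 + z| ≤ θ * Real.log U
            then 1 / ((w.1 : ℝ) * w.2) else 0 := by
          by_cases h8 : |Real.log w.1 - Real.log w.2 + z| ≤ θ * Real.log U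
          · rw [if_pos ⟨hw', h8⟩, if_pos h8]
          · rw [if_neg fun h => h8 h.2, if_neg h8]
        rw [e1]
        by_cases h8 : |Real.log w.1 - Real.log w.2 + z| ≤ θ * Real.log U
        · rw [if_pos h8]
          split_ifs
          · exact le_rfl
          · positivity
        · rw [if_neg h8, if_neg fun h => h8 h.2]
    refine h7.trans ?_
    rw [Finset.sum_add_distrib]
    have h9 : ∑ w ∈ R ×ˢ R, (if w = (1, 1) then I else 0) ≤ I := by
      rw [Finset.sum_ite_eq']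
      split_ifs
      · exact le_rfl
      · exact hI0
    nlinarith [mul_nonneg hC2.le hI0]
  have hY : 0 ≤ (C2 + 1) * (θ + 1 / Real.log U + I) := by positivity
  exact (mul_le_mul_of_nonneg_left (mul_le_mul h4 (le_trans (le_of_eq (Finset.sum_congr (Finset.ext fun w => by
    simp only [Finset.mem_filter]) fun _ _ => rfl)) h5) (Finset.sum_nonneg fun _ _ => by positivity) (by positivity))
    (by norm_num : (0:ℝ) ≤ 2)).trans (le_of_eq (by ring))

/-- The numbers of divisors of rough numbers are bounded. -/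
lemma div_count {δ : ℝ} (hδ : 0 < δ) : ∃ D : ℕ, ∀ U : ℝ, 1 < U → ∀ n ∈ RG δ U (U ^ (4 : ℝ)), n.divisors.card ≤ D := by
  refine ⟨2 ^ ⌈4 / δ⌉₊, fun U hU n hn => ?_⟩
  obtain ⟨h1, h2, h3⟩ := mem_RG.1 hn
  have hU0 : 0 < U := by linarith
  have hn0 : n ≠ 0 := by omega
  have h4 : (n : ℝ) ≤ U ^ (4 : ℝ) := (Nat.le_floor_iff (Real.rpow_pos_of_pos hU0 _).le).1 h2
  set s : ℕ := ∑ p ∈ n.primeFactors, n.factorization p with hs
  have h5 : n.divisors.card ≤ 2 ^ s := by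
    rw [Nat.card_divisors hn0, hs, ← Finset.prod_pow_eq_pow_sum]
    refine Finset.prod_le_prod (fun _ _ => Nat.zero_le _) fun p _ => ?_
    exact Nat.lt_two_pow_self
  have h6 : (U ^ δ) ^ s ≤ (n : ℝ) := by
    have h7 : (n : ℝ) = ∏ p ∈ n.primeFactors, (p : ℝ) ^ n.factorization p := by
      conv_lhs => rw [← Nat.prod_factorization_pow_eq_self hn0]
      rw [Finsupp.prod, Nat.support_factorization]
      push_cast
      rfl
    rw [h7, hs, ← Finset.prod_pow_eq_pow_sum]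
    refine Finset.prod_le_prod (fun _ _ => by positivity) fun p hp => ?_
    exact pow_le_pow_left₀ (Real.rpow_pos_of_pos hU0 _).le (h3 p hp) _
  have h8 : (s : ℝ) ≤ 4 / δ := by
    have h9 : U ^ (δ * s) ≤ U ^ (4 : ℝ) := by
      rw [Real.rpow_mul hU0.le, Real.rpow_natCast]
      exact h6.trans h4
    have h10 := (Real.rpow_le_rpow_left_iff hU).1 h9
    rw [le_div_iff₀ hδ]
    linarith
  have h11 : s ≤ ⌈4 / δ⌉₊ := by exact_mod_cast h8.trans (Nat.le_ceil _)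
  exact h5.trans (Nat.pow_le_pow_right (by norm_num) h11)

/-- the weight of the small factor -/
noncomputable def Vk (U : ℝ) (k : ℕ) : ℝ := if k = 1 then 1 else ArithmeticFunction.vonMangoldt k / Real.log U

open Classical in
/-- the small factor, the rough part of the numerator, the denominator -/
noncomputable def cod (δ U : ℝ) (i : I3) : ℕ × (ℕ × ℕ) :=
  if ∀ p ∈ i.2.primeFactors, U ^ δ ≤ (p : ℝ) then (1, (i.1.1.1 * i.1.2.2 * i.2, i.1.1.2 * i.1.2.1))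
  else (i.2, (i.1.1.1 * i.1.2.2, i.1.1.2 * i.1.2.1))

lemma Vk_nonneg {U : ℝ} (hU : 1 < U) (k : ℕ) : 0 ≤ Vk U k := by
  unfold Vk
  split_ifs
  · norm_num
  · exact div_nonneg ArithmeticFunction.vonMangoldt_nonneg (Real.log_pos hU).le

lemma Vk_le {U : ℝ} (hU : 1 < U) {k : ℕ} (hk : 1 ≤ k) (hkU : k ≤ ⌊U⌋₊) : Vk U k ≤ 1 := by
  unfold Vk
  split_ifs
  · exact le_rfl
  · rw [div_le_one (Real.log_pos hU)]
    refine ArithmeticFunction.vonMangoldt_le_log.trans (Real.log_le_log (by exact_mod_cast hk) ?_)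
    exact (Nat.le_floor_iff (by linarith)).1 hkU

lemma rough_mul {δ U : ℝ} {m n : ℕ} (hm : ∀ p ∈ m.primeFactors, U ^ δ ≤ (p : ℝ)) (hn : ∀ p ∈ n.primeFactors, U ^ δ ≤ (p : ℝ)) :
    ∀ p ∈ (m * n).primeFactors, U ^ δ ≤ (p : ℝ) := by
  intro p hp
  have hp' := Nat.mem_primeFactors.1 hp
  rcases hp'.1.dvd_mul.1 hp'.2.1 with h | h
  · exact hm p (Nat.mem_primeFactors.2 ⟨hp'.1, h, fun h0 => hp'.2.2 (by rw [h0, zero_mul])⟩)
  · exact hn p (Nat.mem_primeFactors.2 ⟨hp'.1, h, fun h0 => hp'.2.2 (by rw [h0, mul_zero])⟩)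

lemma abs_cfn (x : ℕ × ℕ) : |cfn x| = 1 / Real.sqrt ((x.1 : ℝ) * x.2) := by
  unfold cfn
  rw [abs_div, abs_mul, PQ.e3_abs_lam, PQ.e3_abs_lam, abs_of_nonneg (Real.sqrt_nonneg _), mul_one]

/-- the facts on the codes -/
lemma cod_facts {P : PQ.Par} {U : ℝ} (hU : 1 < U) {i : I3} (hi : i ∈ IQ P U) (hw : wq U i ≠ 0) :
    ((cod P.δ U i).1 ∈ Finset.Icc 1 ⌊U⌋₊) ∧ (cod P.δ U i).2.1 ∈ RG P.δ U (U ^ (4 : ℝ)) ∧
    (cod P.δ U i).2.2 ∈ RG P.δ U (U ^ (4 : ℝ)) ∧ aq i = (cod P.δ U i).1 * (cod P.δ U i).2.1 ∧ bq i = (cod P.δ U i).2.2 ∧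
    (∀ n ∈ RG P.δ U (U ^ (4 : ℝ)), Nat.Coprime (cod P.δ U i).1 n) ∧
    wq U i ≤ Vk U (cod P.δ U i).1 / Real.sqrt (cod P.δ U i).1 *
      (1 / Real.sqrt (((cod P.δ U i).2.1 : ℝ) * (cod P.δ U i).2.2)) ∧
    i.1.1.1 ∣ (cod P.δ U i).2.1 ∧ i.1.2.2 ∣ (cod P.δ U i).2.1 ∧ i.1.1.2 ∣ (cod P.δ U i).2.2 := by
  classical
  have hU0 : 0 < U := by linarith
  obtain ⟨⟨⟨x1, x2⟩, ⟨y1, y2⟩⟩, l⟩ := i
  unfold IQ at hi
  rw [Finset.mem_product, Finset.mem_product, Finset.mem_Icc] at hi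
  obtain ⟨⟨hx, hy⟩, hl1, hl2⟩ := hi
  simp only at hx hy hl1 hl2
  obtain ⟨hx1, hx2, _⟩ := PQ.mem_IX.1 hx
  obtain ⟨hy1, hy2, _⟩ := PQ.mem_IX.1 hy
  simp only at hx1 hx2 hy1 hy2
  have g1 := (PQ.mem_NA.1 hx1).1
  have g2 := (PQ.mem_NB.1 hx2).1
  have g3 := (PQ.mem_NA.1 hy1).1
  have g4 := (PQ.mem_NB.1 hy2).1
  have p1 : 0 < x1 := Nat.pos_of_ne_zero g1.1.1
  have p2 : 0 < x2 := Nat.pos_of_ne_zero g2.1.1
  have p3 : 0 < y1 := Nat.pos_of_ne_zero g3.1.1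
  have p4 : 0 < y2 := Nat.pos_of_ne_zero g4.1.1
  have b1 : (x1 : ℝ) ≤ U := g1.2.2.2
  have b2 : (x2 : ℝ) ≤ U := g2.2.2.2
  have b3 : (y1 : ℝ) ≤ U := g3.2.2.2
  have b4 : (y2 : ℝ) ≤ U := g4.2.2.2
  have b5 : (l : ℝ) ≤ U := (Nat.le_floor_iff hU0.le).1 hl2
  have q1 : (0:ℝ) < x1 := by exact_mod_cast p1
  have q2 : (0:ℝ) < x2 := by exact_mod_cast p2
  have q3 : (0:ℝ) < y1 := by exact_mod_cast p3
  have q4 : (0:ℝ) < y2 := by exact_mod_cast p4
  have q5 : (0:ℝ) < l := by exact_mod_cast hl1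
  have hU4 : U ^ (4 : ℝ) = U * U * U * U := by
    rw [show (4 : ℝ) = ((4 : ℕ) : ℝ) by norm_num, Real.rpow_natCast]
    ring
  have r1 : ∀ p ∈ (x1 * y2).primeFactors, U ^ P.δ ≤ (p : ℝ) := rough_mul g1.1.2 g4.1.2
  have r2 : ∀ p ∈ (x2 * y1).primeFactors, U ^ P.δ ≤ (p : ℝ) := rough_mul g2.1.2 g3.1.2
  have s1 : ((x1 * y2 : ℕ) : ℝ) ≤ U * U := by
    push_cast
    exact mul_le_mul b1 b4 q4.le hU0.le
  have s2 : ((x2 * y1 : ℕ) : ℝ) ≤ U * U := by
    push_cast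
    exact mul_le_mul b2 b3 q3.le hU0.le
  have s3 : ((x1 * y2 * l : ℕ) : ℝ) ≤ U * U * U := by
    push_cast at s1 ⊢
    exact mul_le_mul s1 b5 q5.le (by positivity)
  have hUU : U * U ≤ U ^ (4 : ℝ) := by
    rw [hU4]
    have h0 : 1 ≤ U * U := by nlinarith
    nlinarith [mul_pos hU0 hU0]
  have hUUU : U * U * U ≤ U ^ (4 : ℝ) := by
    rw [hU4]
    nlinarith [mul_pos (mul_pos hU0 hU0) hU0]
  have t1 : x1 * y2 ∈ RG P.δ U (U ^ (4 : ℝ)) := mem_RG.2 ⟨Nat.mul_pos p1 p4, Nat.le_floor (s1.trans hUU), r1⟩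
  have t2 : x2 * y1 ∈ RG P.δ U (U ^ (4 : ℝ)) := mem_RG.2 ⟨Nat.mul_pos p2 p3, Nat.le_floor (s2.trans hUU), r2⟩
  have hwq : wq U (((x1, x2), (y1, y2)), l) = Vk U l / Real.sqrt l * (1 / Real.sqrt ((x1 : ℝ) * y2 * (x2 * y1))) := by
    unfold wq Vk
    simp only
    rw [abs_cfn, abs_cfn]
    simp only
    rw [show (x1 : ℝ) * y2 * (x2 * y1) = (x1 * x2) * (y1 * y2) by ring, Real.sqrt_mul (by positivity) ((y1 : ℝ) * y2),
      ← one_div_mul_one_div]
    ring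
  unfold cod aq bq
  simp only
  by_cases hr : ∀ p ∈ l.primeFactors, U ^ P.δ ≤ (p : ℝ)
  · rw [if_pos hr]
    simp only
    have t3 : x1 * y2 * l ∈ RG P.δ U (U ^ (4 : ℝ)) :=
      mem_RG.2 ⟨Nat.mul_pos (Nat.mul_pos p1 p4) hl1, Nat.le_floor (s3.trans hUUU), rough_mul r1 hr⟩
    refine ⟨?_, t3, t2, (one_mul _).symm, trivial, fun n _ => Nat.coprime_one_left n, ?_,
      Dvd.intro _ (mul_assoc _ _ _).symm, ⟨x1 * l, by ring⟩, Dvd.intro _ rfl⟩
    · rw [Finset.mem_Icc]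
      exact ⟨le_rfl, hl1.trans hl2⟩
    · rw [hwq]
      have hv1 : Vk U 1 = 1 := by
        unfold Vk
        rw [if_pos rfl]
      rw [hv1, Nat.cast_one, Real.sqrt_one, div_one, one_mul]
      push_cast
      rw [show (x1 : ℝ) * y2 * l * (x2 * y1) = l * (x1 * y2 * (x2 * y1)) by ring, Real.sqrt_mul q5.le,
        ← one_div_mul_one_div]
      refine mul_le_mul_of_nonneg_right ?_ (by positivity)
      exact div_le_div_of_nonneg_right (Vk_le hU hl1 hl2) (Real.sqrt_nonneg _)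
  · rw [if_neg hr]
    simp only
    refine ⟨Finset.mem_Icc.2 ⟨hl1, hl2⟩, t1, t2, mul_comm _ _, trivial, ?_, ?_, Dvd.intro _ rfl, Dvd.intro_left _ rfl,
      Dvd.intro _ rfl⟩
    · intro n hn
      have hV : Vk U l ≠ 0 := by
        intro h0
        rw [hwq, h0, zero_div, zero_mul] at hw
        exact hw rfl
      have hl0 : l ≠ 1 := by
        intro h0
        rw [h0] at hr
        simp at hr
      unfold Vk at hV
      rw [if_neg hl0] at hV
      have hpp : IsPrimePow l := by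
        rw [← ArithmeticFunction.vonMangoldt_ne_zero_iff]
        intro h0
        rw [h0, zero_div] at hV
        exact hV rfl
      obtain ⟨p, k, hp, hk, rfl⟩ := hpp
      have hpn : p.Prime := hp.nat_prime
      push Not at hr
      obtain ⟨p', hp', hlt⟩ := hr
      have hpe : p' = p := by
        rw [Nat.primeFactors_prime_pow hk.ne' hpn, Finset.mem_singleton] at hp'
        exact hp'
      rw [hpe] at hlt
      refine Nat.Coprime.pow_left k ?_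
      rw [hpn.coprime_iff_not_dvd]
      intro hdvd
      have := (mem_RG.1 hn).2.2 p (Nat.mem_primeFactors.2 ⟨hpn, hdvd, (RG_pos hn).ne'⟩)
      linarith
    · rw [hwq]
      push_cast
      exact le_rfl

open Classical in
/-- The fibres of the codes are bounded. -/
lemma cod_fib {P : PQ.Par} {U : ℝ} (hU : 1 < U) {D : ℕ} (hD : ∀ n ∈ RG P.δ U (U ^ (4 : ℝ)), n.divisors.card ≤ D)
    (c : ℕ × (ℕ × ℕ)) (h1 : c.2.1 ∈ RG P.δ U (U ^ (4 : ℝ))) (h2 : c.2.2 ∈ RG P.δ U (U ^ (4 : ℝ))) :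
    (((IQ P U).filter (fun i => wq U i ≠ 0)).filter (fun i => cod P.δ U i = c)).card ≤ D * D * D := by
  have h3 : (((IQ P U).filter (fun i => wq U i ≠ 0)).filter (fun i => cod P.δ U i = c)).card ≤
      ((c.2.1.divisors ×ˢ c.2.1.divisors) ×ˢ c.2.2.divisors).card := by
    refine Finset.card_le_card_of_injOn (fun i : I3 => ((i.1.1.1, i.1.2.2), i.1.1.2)) ?_ ?_
    · intro i hi
      rw [Finset.mem_coe, Finset.mem_filter, Finset.mem_filter] at hi
      obtain ⟨⟨a1, a2⟩, a3⟩ := hi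
      obtain ⟨-, -, -, -, -, -, -, b1, b2, b3⟩ := cod_facts hU a1 a2
      rw [a3] at b1 b2 b3
      rw [Finset.mem_coe, Finset.mem_product, Finset.mem_product, Nat.mem_divisors, Nat.mem_divisors, Nat.mem_divisors]
      exact ⟨⟨⟨b1, (RG_pos h1).ne'⟩, b2, (RG_pos h1).ne'⟩, b3, (RG_pos h2).ne'⟩
    · intro i hi j hj hij
      rw [Finset.mem_coe, Finset.mem_filter, Finset.mem_filter] at hi hj
      obtain ⟨⟨a1, a2⟩, a3⟩ := hi
      obtain ⟨⟨a4, a5⟩, a6⟩ := hj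
      obtain ⟨c1, _, c3, c4, c5, _⟩ := cod_facts hU a1 a2
      obtain ⟨d1, _, d3, d4, d5, _⟩ := cod_facts hU a4 a5
      rw [a3] at c1 c4 c5
      rw [a6] at d4 d5
      have e0 : 0 < c.1 * c.2.1 := Nat.mul_pos (Finset.mem_Icc.1 c1).1 (RG_pos h1)
      have e1 : bq i = bq j := by rw [c5, d5]
      have e2 : aq i = aq j := by rw [c4, d4]
      have e3 : 0 < bq i := by rw [c5]; exact RG_pos h2
      have e4 : 0 < aq i := by rw [c4]; exact e0
      obtain ⟨⟨⟨x1, x2⟩, ⟨y1, y2⟩⟩, l⟩ := i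
      obtain ⟨⟨⟨x1', x2'⟩, ⟨y1', y2'⟩⟩, l'⟩ := j
      simp only [Prod.mk.injEq] at hij
      obtain ⟨⟨f1, f2⟩, f3⟩ := hij
      unfold aq bq at *
      simp only at e1 e2 e3 e4
      subst f1
      subst f2
      subst f3
      have g1 : y1 = y1' := Nat.eq_of_mul_eq_mul_left (Nat.pos_of_mul_pos_right e3) e1
      have g2 : l = l' := Nat.eq_of_mul_eq_mul_left (Nat.pos_of_mul_pos_right e4) e2
      rw [g1, g2]
  refine h3.trans ?_
  rw [Finset.card_product, Finset.card_product]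
  exact Nat.mul_le_mul (Nat.mul_le_mul (hD _ h1) (hD _ h1)) (hD _ h2)

lemma vk_sum : ∀ᶠ U : ℝ in atTop, ∑ k ∈ Finset.Icc 1 ⌊U⌋₊, ArithmeticFunction.vonMangoldt k / (k : ℝ) ≤ 2 * Real.log U := by
  filter_upwards [eventually_ge_atTop (1:ℝ), Real.tendsto_log_atTop.eventually_ge_atTop (Real.log 4 + 4)] with U hU hL
  have hN : 1 ≤ ⌊U⌋₊ := (Nat.one_le_floor_iff U).2 hU
  have h1 := Pool.Agent.Helper25.UG.vM_upper hN
  have h2 : ∑ k ∈ Finset.Icc 1 ⌊U⌋₊, ArithmeticFunction.vonMangoldt k / (k : ℝ) ≤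
      ∑ k ∈ Finset.range (⌊U⌋₊ + 1), ArithmeticFunction.vonMangoldt k / (k : ℝ) := by
    refine Finset.sum_le_sum_of_subset_of_nonneg ?_ fun k _ _ =>
      div_nonneg ArithmeticFunction.vonMangoldt_nonneg (Nat.cast_nonneg k)
    intro k hk
    rw [Finset.mem_Icc] at hk
    rw [Finset.mem_range]
    omega
  have h3 : Real.log (⌊U⌋₊ : ℝ) ≤ Real.log U :=
    Real.log_le_log (by exact_mod_cast hN) (Nat.floor_le (by linarith))
  linarith

open Classical in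
lemma vk_sum2 : ∀ᶠ U : ℝ in atTop, ∀ θ : ℝ, 0 ≤ θ →
    ∑ k ∈ Finset.Icc 1 ⌊U⌋₊, Vk U k ^ 2 / (k : ℝ) *
      (θ + 1 / Real.log U + (if Real.log k ≠ 0 ∧ |Real.log k| ≤ θ * Real.log U then 1 else 0)) ≤
    5 * θ + 3 * (1 / Real.log U) := by
  filter_upwards [vk_sum, eventually_gt_atTop (1:ℝ)] with U h1 hU θ hθ
  have hL : 0 < Real.log U := Real.log_pos hU
  set X : ℝ := θ + 1 / Real.log U with hX
  have hX0 : 0 ≤ X := by positivity
  have h2 : ∀ k ∈ Finset.Icc 1 ⌊U⌋₊, Vk U k ^ 2 / (k : ℝ) *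
      (X + (if Real.log k ≠ 0 ∧ |Real.log k| ≤ θ * Real.log U then 1 else 0)) ≤
      (if k = 1 then X else 0) + (X + θ) / Real.log U * (ArithmeticFunction.vonMangoldt k / (k : ℝ)) := by
    intro k hk
    obtain ⟨hk1, hk2⟩ := Finset.mem_Icc.1 hk
    have hk0 : (0:ℝ) < k := by exact_mod_cast hk1
    have hkU : (k : ℝ) ≤ U := (Nat.le_floor_iff (by linarith)).1 hk2
    by_cases h1k : k = 1
    · rw [h1k]
      simp [Vk]
    · rw [if_neg h1k, zero_add]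
      have e1 : Vk U k = ArithmeticFunction.vonMangoldt k / Real.log U := by
        unfold Vk
        rw [if_neg h1k]
      rw [e1]
      have l0 : 0 ≤ ArithmeticFunction.vonMangoldt k := ArithmeticFunction.vonMangoldt_nonneg
      have l1 : ArithmeticFunction.vonMangoldt k ≤ Real.log k := ArithmeticFunction.vonMangoldt_le_log
      have l2 : Real.log k ≤ Real.log U := Real.log_le_log hk0 hkU
      have l3 : 0 ≤ Real.log k := Real.log_natCast_nonneg k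
      have e2 : (ArithmeticFunction.vonMangoldt k / Real.log U) ^ 2 / (k : ℝ) =
          (ArithmeticFunction.vonMangoldt k / Real.log U) / Real.log U * (ArithmeticFunction.vonMangoldt k / (k : ℝ)) := by
        field_simp
      have m0 : 0 ≤ ArithmeticFunction.vonMangoldt k / (k : ℝ) := div_nonneg l0 hk0.le
      have m1 : ArithmeticFunction.vonMangoldt k / Real.log U ≤ 1 := (div_le_one hL).2 (l1.trans l2)
      have m2 : 0 ≤ ArithmeticFunction.vonMangoldt k / Real.log U := div_nonneg l0 hL.le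
      rw [e2, mul_right_comm]
      refine mul_le_mul_of_nonneg_right ?_ m0
      rw [div_mul_eq_mul_div]
      refine div_le_div_of_nonneg_right ?_ hL.le
      rw [mul_add]
      refine add_le_add ?_ ?_
      · calc _ ≤ 1 * X := mul_le_mul_of_nonneg_right m1 hX0
          _ = X := one_mul X
      · split_ifs with h3
        · rw [mul_one, div_le_iff₀ hL]
          refine l1.trans ?_
          rw [abs_of_nonneg l3] at h3
          exact h3.2
        · rw [mul_zero]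
          exact hθ
  refine (Finset.sum_le_sum h2).trans ?_
  rw [Finset.sum_add_distrib, ← Finset.mul_sum, Finset.sum_ite_eq']
  have h3 : (X + θ) / Real.log U * ∑ k ∈ Finset.Icc 1 ⌊U⌋₊, ArithmeticFunction.vonMangoldt k / (k : ℝ) ≤
      (X + θ) / Real.log U * (2 * Real.log U) := mul_le_mul_of_nonneg_left h1 (by positivity)
  have h4 : (X + θ) / Real.log U * (2 * Real.log U) = 2 * (X + θ) := by
    field_simp
  have h5 : (if 1 ∈ Finset.Icc 1 ⌊U⌋₊ then X else 0) ≤ X := by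
    split_ifs
    · exact le_rfl
    · exact hX0
  rw [hX] at *
  linarith

lemma pair_facts {δ U : ℝ} {k k' d B d' B' : ℕ} (hk : 0 < k) (h1 : ∀ n ∈ RG δ U (U ^ (4 : ℝ)), Nat.Coprime k n)
    (h2 : ∀ n ∈ RG δ U (U ^ (4 : ℝ)), Nat.Coprime k' n) (hd : d ∈ RG δ U (U ^ (4 : ℝ))) (hB : B ∈ RG δ U (U ^ (4 : ℝ)))
    (hd' : d' ∈ RG δ U (U ^ (4 : ℝ))) (hB' : B' ∈ RG δ U (U ^ (4 : ℝ)))
    (h : k * d * (k' * d') = B * B' ∨ k * d * B' = B * (k' * d')) :
    k = k' ∧ (d * B' = B * d' ∨ d * d' = B * B') := by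
  rcases h with h | h
  · have e1 : k = 1 := by
      refine Nat.Coprime.eq_one_of_dvd ((h1 B hB).mul_right (h1 B' hB')) ?_
      rw [← h]
      exact ⟨d * (k' * d'), by ring⟩
    have e2 : k' = 1 := by
      refine Nat.Coprime.eq_one_of_dvd ((h2 B hB).mul_right (h2 B' hB')) ?_
      rw [← h]
      exact ⟨k * d * d', by ring⟩
    refine ⟨by rw [e1, e2], Or.inr ?_⟩
    rw [e1, e2, one_mul, one_mul] at h
    exact h
  · have e1 : k ∣ k' := by
      refine ((h1 B hB).mul_right (h1 d' hd')).dvd_of_dvd_mul_right (m := k') ?_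
      rw [show k' * (B * d') = B * (k' * d') by ring, ← h]
      exact ⟨d * B', by ring⟩
    have e2 : k' ∣ k := by
      refine ((h2 d hd).mul_right (h2 B' hB')).dvd_of_dvd_mul_right (m := k) ?_
      rw [show k * (d * B') = k * d * B' by ring, h]
      exact ⟨B * d', by ring⟩
    have e3 := Nat.dvd_antisymm e1 e2
    refine ⟨e3, Or.inl ?_⟩
    rw [← e3] at h
    refine Nat.eq_of_mul_eq_mul_left hk ?_
    calc k * (d * B') = k * d * B' := by ring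
      _ = B * (k * d') := h
      _ = k * (B * d') := by ring

open Classical in
/-- Both sides of the diagonal equation are `g u v w (ℓ)` with `g, u, v, w` rough. -/
theorem corr_core (P : PQ.Par) : ∃ C : ℝ, 0 < C ∧ ∀ᶠ U : ℝ in atTop, ∀ θ : ℝ, 0 ≤ θ →
    ∑ i ∈ IQ P U, ∑ j ∈ IQ P U, (if cnd θ U (aq i) (bq i) (aq j) (bq j) then wq U i * wq U j else 0) ≤
      C * (5 * θ + 3 * (1 / Real.log U)) := by
  obtain ⟨C, hC, hq⟩ := quad_sum P.hδ
  obtain ⟨D, hD⟩ := div_count P.hδ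
  set M : ℕ := (D * D * D) * (D * D * D) with hM
  have hM0 : (0:ℝ) < (M : ℝ) + 1 := by positivity
  refine ⟨((M : ℝ) + 1) * C, by positivity, ?_⟩
  filter_upwards [hq, vk_sum2, eventually_gt_atTop (1:ℝ)] with U hU1 hU2 hU θ hθ0
  have hL : 0 < Real.log U := Real.log_pos hU
  set R := RG P.δ U (U ^ (4 : ℝ)) with hR
  set S := (IQ P U ×ˢ IQ P U).filter (fun q => cnd θ U (aq q.1) (bq q.1) (aq q.2) (bq q.2) ∧ wq U q.1 ≠ 0 ∧ wq U q.2 ≠ 0)
    with hS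
  set Q := (IQ P U).filter (fun i => wq U i ≠ 0) with hQ
  set G : I3 × I3 → ℕ × ((ℕ × ℕ) × (ℕ × ℕ)) := fun q => ((cod P.δ U q.1).1, ((cod P.δ U q.1).2, (cod P.δ U q.2).2)) with hG
  set f : ℕ × ((ℕ × ℕ) × (ℕ × ℕ)) → ℝ := fun c => Vk U c.1 ^ 2 / (c.1 : ℝ) *
    (if (c.2.1.1 * c.2.2.2 = c.2.1.2 * c.2.2.1 ∨ c.2.1.1 * c.2.2.1 = c.2.1.2 * c.2.2.2) ∧
      (¬ (Real.log c.1 = 0 ∧ c.2.1.1 = c.2.1.2) ∧ |Real.log c.2.1.1 - Real.log c.2.1.2 + Real.log c.1| ≤ θ * Real.log U)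
      then 1 / Real.sqrt ((c.2.1.1 : ℝ) * c.2.1.2) * (1 / Real.sqrt ((c.2.2.1 : ℝ) * c.2.2.2)) else 0) with hf
  have hf0 : ∀ c, 0 ≤ f c := by
    intro c
    simp only [hf]
    refine mul_nonneg (by positivity) ?_
    split_ifs
    · positivity
    · exact le_rfl
  -- facts on the pairs
  have hpair : ∀ q ∈ S, (q.1 ∈ IQ P U ∧ wq U q.1 ≠ 0) ∧ (q.2 ∈ IQ P U ∧ wq U q.2 ≠ 0) ∧
      (cod P.δ U q.2).1 = (cod P.δ U q.1).1 ∧ wq U q.1 * wq U q.2 ≤ f (G q) := by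
    intro q hq'
    rw [hS, Finset.mem_filter, Finset.mem_product] at hq'
    obtain ⟨⟨i1, i2⟩, ⟨c1, c2, c3⟩, w1, w2⟩ := hq'
    obtain ⟨a1, a2, a3, a4, a5, a6, a7, -⟩ := cod_facts hU i1 w1
    obtain ⟨b1, b2, b3, b4, b5, b6, b7, -⟩ := cod_facts hU i2 w2
    have hk : 0 < (cod P.δ U q.1).1 := (Finset.mem_Icc.1 a1).1
    rw [a4, a5, b4, b5] at c3
    obtain ⟨e1, e2⟩ := pair_facts hk a6 b6 a2 a3 b2 b3 c3
    refine ⟨⟨i1, w1⟩, ⟨i2, w2⟩, e1.symm, ?_⟩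
    have hlog : Real.log (aq q.1) = Real.log (cod P.δ U q.1).1 + Real.log (cod P.δ U q.1).2.1 := by
      rw [a4]
      push_cast
      rw [Real.log_mul (by exact_mod_cast hk.ne') (by exact_mod_cast (RG_pos a2).ne')]
    have hcond : (((cod P.δ U q.1).2.1 * (cod P.δ U q.2).2.2 = (cod P.δ U q.1).2.2 * (cod P.δ U q.2).2.1 ∨
        (cod P.δ U q.1).2.1 * (cod P.δ U q.2).2.1 = (cod P.δ U q.1).2.2 * (cod P.δ U q.2).2.2) ∧
        (¬ (Real.log (cod P.δ U q.1).1 = 0 ∧ (cod P.δ U q.1).2.1 = (cod P.δ U q.1).2.2) ∧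
        |Real.log (cod P.δ U q.1).2.1 - Real.log (cod P.δ U q.1).2.2 + Real.log (cod P.δ U q.1).1| ≤ θ * Real.log U)) := by
      refine ⟨e2, ?_, ?_⟩
      · rintro ⟨h0, h3⟩
        apply c1
        have h4 : (cod P.δ U q.1).1 = 1 := by
          have h5 : (0:ℝ) < (cod P.δ U q.1).1 := by exact_mod_cast hk
          have h6 : ((cod P.δ U q.1).1 : ℝ) = 1 := Real.eq_one_of_pos_of_log_eq_zero h5 h0
          exact_mod_cast h6
        rw [a4, a5, h4, one_mul, h3]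
      · rw [hlog, a5] at c2
        rw [show Real.log ((cod P.δ U q.1).2.1 : ℝ) - Real.log (cod P.δ U q.1).2.2 + Real.log (cod P.δ U q.1).1 =
          Real.log (cod P.δ U q.1).1 + Real.log (cod P.δ U q.1).2.1 - Real.log (cod P.δ U q.1).2.2 by ring]
        exact c2
    simp only [hf, hG]
    rw [if_pos hcond]
    have hk0 : (0:ℝ) < (cod P.δ U q.1).1 := by exact_mod_cast hk
    have hv := Vk_nonneg hU (cod P.δ U q.1).1
    have w0 : 0 ≤ wq U q.2 := by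
      unfold wq
      have h7 : 0 ≤ (if q.2.2 = 1 then (1:ℝ) else ArithmeticFunction.vonMangoldt q.2.2 / Real.log U) := Vk_nonneg hU q.2.2
      positivity
    calc wq U q.1 * wq U q.2
        ≤ (Vk U (cod P.δ U q.1).1 / Real.sqrt (cod P.δ U q.1).1 *
          (1 / Real.sqrt (((cod P.δ U q.1).2.1 : ℝ) * (cod P.δ U q.1).2.2))) *
          (Vk U (cod P.δ U q.2).1 / Real.sqrt (cod P.δ U q.2).1 *
          (1 / Real.sqrt (((cod P.δ U q.2).2.1 : ℝ) * (cod P.δ U q.2).2.2))) :=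
          mul_le_mul a7 b7 w0 (by positivity)
      _ = _ := by
          rw [← e1]
          have h8 : Real.sqrt (cod P.δ U q.1).1 * Real.sqrt (cod P.δ U q.1).1 = (cod P.δ U q.1).1 :=
            Real.mul_self_sqrt hk0.le
          have h9 : Vk U (cod P.δ U q.1).1 ^ 2 / ((cod P.δ U q.1).1 : ℝ) =
              Vk U (cod P.δ U q.1).1 / Real.sqrt (cod P.δ U q.1).1 * (Vk U (cod P.δ U q.1).1 / Real.sqrt (cod P.δ U q.1).1) := by
            rw [div_mul_div_comm, h8, pow_two]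
          rw [h9]
          ring
  have hmaps : ∀ q ∈ S, G q ∈ Finset.Icc 1 ⌊U⌋₊ ×ˢ ((R ×ˢ R) ×ˢ (R ×ˢ R)) := by
    intro q hq'
    obtain ⟨⟨i1, w1⟩, ⟨i2, w2⟩, _, _⟩ := hpair q hq'
    obtain ⟨a1, a2, a3, -⟩ := cod_facts hU i1 w1
    obtain ⟨b1, b2, b3, -⟩ := cod_facts hU i2 w2
    simp only [hG, Finset.mem_product]
    exact ⟨a1, ⟨a2, a3⟩, b2, b3⟩
  have hfib : ∀ c ∈ Finset.Icc 1 ⌊U⌋₊ ×ˢ ((R ×ˢ R) ×ˢ (R ×ˢ R)), (S.filter (fun q => G q = c)).card ≤ M := by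
    intro c hc
    rw [Finset.mem_product, Finset.mem_product, Finset.mem_product, Finset.mem_product] at hc
    obtain ⟨hc0, ⟨hc1, hc2⟩, hc3, hc4⟩ := hc
    have h3 : S.filter (fun q => G q = c) ⊆ (Q.filter (fun i => cod P.δ U i = (c.1, c.2.1))) ×ˢ
        (Q.filter (fun i => cod P.δ U i = (c.1, c.2.2))) := by
      intro q hq'
      rw [Finset.mem_filter] at hq'
      obtain ⟨⟨i1, w1⟩, ⟨i2, w2⟩, e1, _⟩ := hpair q hq'.1
      rw [Finset.mem_product, Finset.mem_filter, Finset.mem_filter, hQ, Finset.mem_filter, Finset.mem_filter]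
      have e2 := hq'.2
      simp only [hG] at e2
      refine ⟨⟨⟨i1, w1⟩, ?_⟩, ⟨⟨i2, w2⟩, ?_⟩⟩
      · rw [← e2]
      · rw [← e2]
        exact Prod.ext e1 rfl
    refine (Finset.card_le_card h3).trans ?_
    rw [Finset.card_product]
    exact Nat.mul_le_mul (cod_fib hU (hD U hU) (c.1, c.2.1) hc1 hc2) (cod_fib hU (hD U hU) (c.1, c.2.2) hc3 hc4)
  have hstart : ∑ i ∈ IQ P U, ∑ j ∈ IQ P U, (if cnd θ U (aq i) (bq i) (aq j) (bq j) then wq U i * wq U j else 0) =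
      ∑ q ∈ S, wq U q.1 * wq U q.2 := by
    rw [hS, Finset.sum_filter, Finset.sum_product]
    refine Finset.sum_congr rfl fun i _ => Finset.sum_congr rfl fun j _ => ?_
    by_cases h1 : wq U i = 0
    · simp [h1]
    by_cases h2 : wq U j = 0
    · simp [h2]
    simp [h1, h2]
  rw [hstart]
  calc ∑ q ∈ S, wq U q.1 * wq U q.2 ≤ ∑ q ∈ S, f (G q) := Finset.sum_le_sum fun q hq' => (hpair q hq').2.2.2
    _ ≤ M * ∑ c ∈ Finset.Icc 1 ⌊U⌋₊ ×ˢ ((R ×ˢ R) ×ˢ (R ×ˢ R)), f c := sum_code S _ G M hmaps hfib f fun c _ => hf0 c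
    _ ≤ M * (C * (5 * θ + 3 * (1 / Real.log U))) := by
        refine mul_le_mul_of_nonneg_left ?_ (Nat.cast_nonneg _)
        rw [Finset.sum_product]
        calc ∑ k ∈ Finset.Icc 1 ⌊U⌋₊, ∑ w ∈ (R ×ˢ R) ×ˢ (R ×ˢ R), f (k, w)
            ≤ ∑ k ∈ Finset.Icc 1 ⌊U⌋₊, C * (Vk U k ^ 2 / (k : ℝ) *
              (θ + 1 / Real.log U + (if Real.log k ≠ 0 ∧ |Real.log k| ≤ θ * Real.log U then 1 else 0))) := by
              refine Finset.sum_le_sum fun k _ => ?_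
              simp only [hf]
              rw [← Finset.mul_sum, ← Finset.sum_filter, mul_left_comm]
              refine mul_le_mul_of_nonneg_left (hU1 θ hθ0 (Real.log k)) (by positivity)
          _ ≤ C * (5 * θ + 3 * (1 / Real.log U)) := by
              rw [← Finset.mul_sum]
              exact mul_le_mul_of_nonneg_left (hU2 θ hθ0) hC.le
    _ ≤ ((M : ℝ) + 1) * C * (5 * θ + 3 * (1 / Real.log U)) := by
        have h3 : 0 ≤ C * (5 * θ + 3 * (1 / Real.log U)) := by positivity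
        nlinarith

open Classical in
/-- N3 -/
theorem corr (P : PQ.Par) {ε : ℝ} (hε : 0 < ε) : ∃ θ : ℝ, 0 < θ ∧ ∀ᶠ U : ℝ in atTop,
    ∑ i ∈ IQ P U, ∑ j ∈ IQ P U, (if cnd θ U (aq i) (bq i) (aq j) (bq j) then wq U i * wq U j else 0) ≤ ε := by
  obtain ⟨C, hC, h⟩ := corr_core P
  refine ⟨ε / (10 * C), by positivity, ?_⟩
  filter_upwards [h, Real.tendsto_log_atTop.eventually_ge_atTop (6 * C / ε), eventually_gt_atTop (1:ℝ)] with U hU hUL hU1
  have hL : 0 < Real.log U := Real.log_pos hU1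
  refine (hU (ε / (10 * C)) (by positivity)).trans ?_
  have h3 : 1 / Real.log U ≤ ε / (6 * C) := by
    rw [div_le_div_iff₀ hL (by positivity), one_mul]
    rw [div_le_iff₀ hε] at hUL
    linarith
  calc C * (5 * (ε / (10 * C)) + 3 * (1 / Real.log U)) ≤ C * (5 * (ε / (10 * C)) + 3 * (ε / (6 * C))) :=
        mul_le_mul_of_nonneg_left (by linarith) hC.le
    _ = ε := by
        field_simp
        ring

open Classical in
/-- N3r -/
theorem corr_rate (P : PQ.Par) : ∃ C : ℝ, 0 < C ∧ ∀ θ : ℝ, 0 < θ → θ ≤ 1 → ∀ᶠ U : ℝ in atTop,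
    ∑ i ∈ IQ P U, ∑ j ∈ IQ P U, (if cnd θ U (aq i) (bq i) (aq j) (bq j) then wq U i * wq U j else 0) ≤ C * θ := by
  obtain ⟨C, hC, h⟩ := corr_core P
  refine ⟨8 * C, by positivity, fun θ hθ _ => ?_⟩
  filter_upwards [h, Real.tendsto_log_atTop.eventually_ge_atTop (1 / θ), eventually_gt_atTop (1:ℝ)] with U hU hUL hU1
  have hL : 0 < Real.log U := Real.log_pos hU1
  refine (hU θ hθ.le).trans ?_
  have h3 : 1 / Real.log U ≤ θ := by
    rw [div_le_iff₀ hL]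
    rw [div_le_iff₀ hθ] at hUL
    linarith
  calc C * (5 * θ + 3 * (1 / Real.log U)) ≤ C * (5 * θ + 3 * θ) := mul_le_mul_of_nonneg_left (by linarith) hC.le
    _ = 8 * C * θ := by ring

open Classical in
/-- N3r, up to `θ = 2` -/
theorem corr_rate2 (P : PQ.Par) : ∃ C : ℝ, 0 < C ∧ ∀ θ : ℝ, 0 < θ → θ ≤ 2 → ∀ᶠ U : ℝ in atTop,
    ∑ i ∈ IQ P U, ∑ j ∈ IQ P U, (if cnd θ U (aq i) (bq i) (aq j) (bq j) then wq U i * wq U j else 0) ≤ C * θ := by
  obtain ⟨C, hC, h⟩ := corr_core P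
  refine ⟨8 * C, by positivity, fun θ hθ _ => ?_⟩
  filter_upwards [h, Real.tendsto_log_atTop.eventually_ge_atTop (1 / θ), eventually_gt_atTop (1:ℝ)] with U hU hUL hU1
  have hL : 0 < Real.log U := Real.log_pos hU1
  refine (hU θ hθ.le).trans ?_
  have h3 : 1 / Real.log U ≤ θ := by
    rw [div_le_iff₀ hL]
    rw [div_le_iff₀ hθ] at hUL
    linarith
  calc C * (5 * θ + 3 * (1 / Real.log U)) ≤ C * (5 * θ + 3 * θ) := mul_le_mul_of_nonneg_left (by linarith) hC.le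
    _ = 8 * C * θ := by ring

end Pool.Agent.Helper7.ES
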