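import Pool.Agent.Helper7.ES.LawFF
import Pool.Agent.Helper69.ES.DefsR

/-!
# ES with a rate: the law of large numbers for `|M|²`
-/

open MeasureTheory Set Filter Topology
open Pool.Agent.Helper57.Zeta Pool.Agent.Helper57.PC Pool.Agent.Helper57.LH Pool.Agent.Helper78.SG
open Pool.Agent.Helper4.SH Pool.Agent.Helper69.PP Pool.Agent.Helper22.SI
open Pool.Agent.Helper69.SM (wt wt_cont)
open Pool.Agent.Helper69.ES
open Pool.Agent.Helper69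
open scoped Interval

namespace Pool.Agent.Helper7.ES

/-- domination by a finite sum -/
theorem l2w_dom {g : TF} (hg : GoodG g) {ι : Type} (s : Finset ι) (F : ℝ → ℝ → ℝ) (H : ι → ℝ → ℝ → ℝ)
    (hH : ∀ k ∈ s, ∀ x, Continuous (H k x)) (hL : ∀ k ∈ s, L2W g (H k)) (hle : ∀ x t, |F x t| ≤ ∑ k ∈ s, |H k x t|) :
    L2W g F := by
  have hwt0 : ∀ x t, 0 ≤ wt g.h x x t := fun x t => hg.2.1 _
  have hint : ∀ k ∈ s, ∀ x, 0 < x → Integrable (fun t => wt g.h x x t * H k x t ^ 2) := fun k hk x hx =>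
    wtI g x hx ((hH k hk x).pow 2)
  have hpt : ∀ x t, wt g.h x x t * F x t ^ 2 ≤ ∑ k ∈ s, (s.card : ℝ) * (wt g.h x x t * H k x t ^ 2) := by
    intro x t
    have h1 : F x t ^ 2 ≤ (s.card : ℝ) * ∑ k ∈ s, H k x t ^ 2 := by
      have h2 : |F x t| ^ 2 ≤ (∑ k ∈ s, |H k x t|) ^ 2 := pow_le_pow_left₀ (abs_nonneg _) (hle x t) 2
      rw [sq_abs] at h2
      have h3 : (∑ k ∈ s, |H k x t|) ^ 2 ≤ (s.card : ℝ) * ∑ k ∈ s, |H k x t| ^ 2 := sq_sum_le_card_mul_sum_sq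
      simp only [sq_abs] at h3
      exact h2.trans h3
    calc wt g.h x x t * F x t ^ 2 ≤ wt g.h x x t * ((s.card : ℝ) * ∑ k ∈ s, H k x t ^ 2) :=
          mul_le_mul_of_nonneg_left h1 (hwt0 x t)
      _ = ∑ k ∈ s, (s.card : ℝ) * (wt g.h x x t * H k x t ^ 2) := by
          rw [← Finset.mul_sum, ← Finset.mul_sum]
          ring
  have h1 : ∀ k ∈ s, ∃ C : ℝ, 0 < C ∧ ∀ᶠ x : ℝ in atTop, ∫ t, wt g.h x x t * H k x t ^ 2 ≤ C * x := fun k hk => hL k hk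
  choose! C hC hCx using h1
  have hsum0 : 0 ≤ ∑ k ∈ s, C k := Finset.sum_nonneg fun k hk => (hC k hk).le
  refine ⟨(s.card : ℝ) * ∑ k ∈ s, C k + 1, by positivity, ?_⟩
  filter_upwards [(Filter.eventually_all_finset s).2 hCx, eventually_gt_atTop (0:ℝ)] with x hx hx0
  calc ∫ t, wt g.h x x t * F x t ^ 2 ≤ ∫ t, ∑ k ∈ s, (s.card : ℝ) * (wt g.h x x t * H k x t ^ 2) :=
        integral_mono_of_nonneg (Eventually.of_forall fun t => mul_nonneg (hwt0 x t) (sq_nonneg _))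
          (integrable_finsetSum _ fun k hk => (hint k hk x hx0).const_mul _) (Eventually.of_forall fun t => hpt x t)
    _ = ∑ k ∈ s, (s.card : ℝ) * ∫ t, wt g.h x x t * H k x t ^ 2 := by
        rw [integral_finsetSum _ fun k hk => (hint k hk x hx0).const_mul _]
        exact Finset.sum_congr rfl fun k _ => integral_const_mul _ _
    _ ≤ ∑ k ∈ s, (s.card : ℝ) * (C k * x) :=
        Finset.sum_le_sum fun k hk => mul_le_mul_of_nonneg_left (hx k hk) (Nat.cast_nonneg _)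
    _ = (s.card : ℝ) * (∑ k ∈ s, C k) * x := by
        rw [← Finset.mul_sum, ← Finset.sum_mul]
        ring
    _ ≤ ((s.card : ℝ) * ∑ k ∈ s, C k + 1) * x := by nlinarith

theorem l2w_FF (P : PQ.Par) (f : ℕ → TF) {g : TF} (hg : GoodG g)
    (hL : ∀ k ∈ PQ.KR P, L2W g (fun x t => |PQ.FK P k (x ^ ((1 : ℝ) / 2)) t| * (1 + |pss (f k).h 2 (x ^ ((1 : ℝ) / 2)) t|))) :
    L2W g (fun x t => PQ.FF P (x ^ ((1 : ℝ) / 2)) t) := by
  refine l2w_dom hg (PQ.KR P) _ (fun k x t => |PQ.FK P k (x ^ ((1 : ℝ) / 2)) t| * (1 + |pss (f k).h 2 (x ^ ((1 : ℝ) / 2)) t|))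
    (fun k _ x => (PQ.FK_cont P k _).abs.mul (continuous_const.add (pss_cont (f k).h 2 _).abs)) hL fun x t => ?_
  rw [PQ.FF_eq]
  refine (Finset.abs_sum_le_sum_abs _ _).trans (Finset.sum_le_sum fun k _ => ?_)
  rw [abs_of_nonneg (by positivity : 0 ≤ |PQ.FK P k (x ^ ((1 : ℝ) / 2)) t| * (1 + |pss (f k).h 2 (x ^ ((1 : ℝ) / 2)) t|))]
  have h1 := abs_nonneg (PQ.FK P k (x ^ ((1 : ℝ) / 2)) t)
  have h2 := abs_nonneg (pss (f k).h 2 (x ^ ((1 : ℝ) / 2)) t)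
  nlinarith [mul_nonneg h1 h2]

theorem dgr_FF (P : PQ.Par) : Dgr (fun x => PQ.IX P (x ^ ((1 : ℝ) / 2)) ×ˢ PQ.IX P (x ^ ((1 : ℝ) / 2)))
    (fun _ z => cfn z.1 * cfn z.2) (fun z : (ℕ × ℕ) × (ℕ × ℕ) => z.1.1 * z.2.2) (fun z => z.1.2 * z.2.1) := by
  classical
  obtain ⟨C, hC, h⟩ := corr_core P
  refine ⟨13 * C, by positivity, fun θ hθ _ => ?_⟩
  have htend : Tendsto (fun x : ℝ => x ^ ((1 : ℝ) / 2)) atTop atTop := tendsto_rpow_atTop (by norm_num)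
  filter_upwards [htend.eventually h, htend.eventually_gt_atTop 1, eventually_gt_atTop (0:ℝ),
    htend.eventually (Real.tendsto_log_atTop.eventually_ge_atTop (1 / θ))] with x hx hU hx0 hUL
  have hL : 0 < Real.log (x ^ ((1 : ℝ) / 2)) := Real.log_pos hU
  refine (dg_le P hx0 hU θ).trans ((hx (2 * θ) (by positivity)).trans ?_)
  have h3 : 1 / Real.log (x ^ ((1 : ℝ) / 2)) ≤ θ := by
    rw [div_le_iff₀ hL]
    rw [div_le_iff₀ hθ] at hUL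
    linarith
  calc C * (5 * (2 * θ) + 3 * (1 / Real.log (x ^ ((1 : ℝ) / 2)))) ≤ C * (5 * (2 * θ) + 3 * θ) :=
        mul_le_mul_of_nonneg_left (by linarith) hC.le
    _ = 13 * C * θ := by ring

/-- over `law_rate`, `l2_FK` -/
theorem law_FFr_of
    (law_rate : ∀ {ι : Type} {F : ℝ → ℝ → ℝ} {S : ℝ → Finset ι} {c : ℝ → ι → ℝ} {a b : ι → ℕ} (g : TF), GoodG g →
      Rep F S c a b → Dgr S c a b → (∀ x, Continuous (F x)) → Crude F → L2W g F →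
      LLNr F (fun x => ∑ i ∈ S x, if a i = b i then c x i else 0))
    (l2_FK : ∀ (P : PQ.Par) (g : TF), GoodG g → ∀ {k : ℕ} {f : TF}, PQ.KF P k f →
      L2W g (fun x t => |PQ.FK P k (x ^ ((1 : ℝ) / 2)) t| * (1 + |pss f.h 2 (x ^ ((1 : ℝ) / 2)) t|)))
    (P : PQ.Par) (f : ℕ → TF) (hf : ∀ k ∈ PQ.KR P, PQ.KF P k (f k)) :
    LLNr (fun x t => PQ.FF P (x ^ ((1 : ℝ) / 2)) t) (fun x => PQ.AT P (x ^ ((1 : ℝ) / 2))) := by
  obtain ⟨g, hg⟩ := exists_gg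
  have h := law_rate g hg (rep_FF P) (dgr_FF P) (fun x => PQ.FF_cont P _) (crude_FF P)
    (l2w_FF P f hg fun k hk => l2_FK P g hg (hf k hk))
  have e : (fun x : ℝ => PQ.AT P (x ^ ((1 : ℝ) / 2))) = fun x : ℝ => ∑ z ∈ PQ.IX P (x ^ ((1 : ℝ) / 2)) ×ˢ PQ.IX P (x ^ ((1 : ℝ) / 2)),
      (if z.1.1 * z.2.2 = z.1.2 * z.2.1 then cfn z.1 * cfn z.2 else 0) := by
    funext x
    exact (ff_diag P _).symm
  rw [e]
  exact h

end Pool.Agent.Helper7.ES
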