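import Pool.Agent.Helper69.ES.Defs
import Pool.Agent.Helper22.SI.U4S

/-!
# ES: U, uniform integrability over `[x, 2x]` from windows of length `x^(1/2)`
-/

open MeasureTheory Set Filter Topology
open Pool.Agent.Helper57.Zeta Pool.Agent.Helper57.PC Pool.Agent.Helper57.LH Pool.Agent.Helper78.SG
open Pool.Agent.Helper4.SH Pool.Agent.Helper69.PP Pool.Agent.Helper22.SI
open Pool.Agent.Helper69.SM (wt wt_cont)
open Pool.Agent.Helper69.ES
open Pool.Agent.Helper69
open scoped Interval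

namespace Pool.Agent.Helper7.ES

/-- one height -/
lemma ui_core {g : TF} (hg : GoodG g) {x U : ℝ} (hU : 1 ≤ U) (hxU : x = U * U) {Φ : ℝ → ℝ} (hΦ : Continuous Φ)
    (hΦ0 : ∀ t, 0 ≤ Φ t) {C0 η ε1 η' : ℝ} (hC0 : 0 < C0) (hη : 0 < η) (hε1 : 0 ≤ ε1) (hη' : 0 ≤ η')
    (h1 : ∀ y : ℝ, ∫ t, wt g.h y U t * Φ t ≤ C0 * U)
    (h2 : ∀ y : ℝ, ∀ B : Set ℝ, MeasurableSet B → volume B ≤ ENNReal.ofReal (η * U) → ∫ t in B, wt g.h y U t * Φ t ≤ ε1 * U)
    {B : Set ℝ} (hB : MeasurableSet B) (hBv : volume B ≤ ENNReal.ofReal (η' * x)) :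
    ∫ t in B, wt g.h x x t * Φ t ≤ 4 * ε1 * x + C0 / η * (η' * x) := by
  have hU0 : 0 < U := by linarith
  have hx0 : 0 < x := by rw [hxU]; positivity
  have hwt0 : ∀ y H t, 0 ≤ wt g.h y H t := fun y H t => hg.2.1 _
  have hwt1 : ∀ y H t, wt g.h y H t ≤ 1 := fun y H t => hg.2.2.1 _
  set n : ℕ := ⌈2 * U⌉₊ + 1 with hn
  have hn4 : (n : ℝ) ≤ 4 * U := by
    rw [hn]
    push_cast
    have := (Nat.ceil_lt_add_one (by positivity : (0:ℝ) ≤ 2 * U)).le
    linarith
  set I : ℕ → Set ℝ := fun j => Ico (5 * x / 4 + j * (U / 4)) (5 * x / 4 + (j + 1) * (U / 4)) with hI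
  set y : ℕ → ℝ := fun j => 5 * x / 4 + j * (U / 4) - 3 * U / 8 with hy
  have hIm : ∀ j, MeasurableSet (I j) := fun j => measurableSet_Ico
  have hint : ∀ j : ℕ, Integrable (fun t => wt g.h (y j) U t * Φ t) := fun j => wtI g (y j) hU0 hΦ
  have hint0 : Integrable (fun t => wt g.h x x t * Φ t) := wtI g x hx0 hΦ
  have hone : ∀ j : ℕ, ∀ t ∈ I j, wt g.h (y j) U t = 1 := by
    intro j t ht
    simp only [hI, mem_Ico] at ht
    unfold SM.wt
    apply hg.2.2.2
    simp only [hy]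
    have e1 : (t - (5 * x / 4 + (j : ℝ) * (U / 4) - 3 * U / 8)) / U - 1 / 2 = (t - (5 * x / 4 + (j : ℝ) * (U / 4)) - U / 8) / U := by
      field_simp
      ring
    rw [e1, abs_le]
    constructor
    · rw [le_div_iff₀ hU0]
      linarith [ht.1]
    · rw [div_le_iff₀ hU0]
      linarith [ht.2]
  -- pointwise
  have hpt : ∀ t, B.indicator (fun t => wt g.h x x t * Φ t) t ≤
      ∑ j ∈ Finset.range n, (B ∩ I j).indicator (fun t => wt g.h (y j) U t * Φ t) t := by
    intro t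
    have hnn : ∀ j ∈ Finset.range n, 0 ≤ (B ∩ I j).indicator (fun t => wt g.h (y j) U t * Φ t) t := fun j _ =>
      indicator_nonneg (fun s _ => mul_nonneg (hwt0 _ _ _) (hΦ0 s)) t
    by_cases hBt : t ∈ B
    · by_cases hIt : t ∈ Icc (x + x * (1 / 2 - g.th)) (x + x * (1 / 2 + g.th))
      · rw [hg.1] at hIt
        obtain ⟨l1, l2⟩ := hIt
        have l3 : 0 ≤ (t - 5 * x / 4) / (U / 4) := div_nonneg (by linarith) (by positivity)
        set j : ℕ := ⌊(t - 5 * x / 4) / (U / 4)⌋₊ with hj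
        have l4 : (j : ℝ) ≤ (t - 5 * x / 4) / (U / 4) := Nat.floor_le l3
        have l5 : (t - 5 * x / 4) / (U / 4) < j + 1 := Nat.lt_floor_add_one _
        rw [le_div_iff₀ (by positivity)] at l4
        rw [div_lt_iff₀ (by positivity)] at l5
        have l6 : j ∈ Finset.range n := by
          rw [Finset.mem_range]
          have l7 : (j : ℝ) ≤ 2 * U := by
            have l8 : (j : ℝ) * (U / 4) ≤ 2 * U * (U / 4) := by
              rw [show 2 * U * (U / 4) = x / 2 by rw [hxU]; ring]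
              linarith
            exact le_of_mul_le_mul_right l8 (by positivity)
          have l9 : j ≤ ⌈2 * U⌉₊ := by exact_mod_cast l7.trans (Nat.le_ceil _)
          omega
        have l10 : t ∈ B ∩ I j := ⟨hBt, by simp only [hI, mem_Ico]; constructor <;> linarith⟩
        rw [indicator_of_mem hBt]
        refine le_trans ?_ (Finset.single_le_sum hnn l6)
        rw [indicator_of_mem l10, hone j t l10.2]
        exact mul_le_mul_of_nonneg_right (hwt1 _ _ _) (hΦ0 t)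
      · rw [indicator_of_mem hBt, wt_zero g x hx0 hIt, zero_mul]
        exact Finset.sum_nonneg hnn
    · rw [indicator_of_notMem hBt]
      exact Finset.sum_nonneg hnn
  have hstep1 : ∫ t in B, wt g.h x x t * Φ t ≤ ∑ j ∈ Finset.range n, ∫ t in B ∩ I j, wt g.h (y j) U t * Φ t := by
    rw [← integral_indicator hB]
    have e1 : ∑ j ∈ Finset.range n, ∫ t in B ∩ I j, wt g.h (y j) U t * Φ t =
        ∫ t, ∑ j ∈ Finset.range n, (B ∩ I j).indicator (fun t => wt g.h (y j) U t * Φ t) t := by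
      rw [integral_finsetSum _ fun j _ => (hint j).indicator (hB.inter (hIm j))]
      exact Finset.sum_congr rfl fun j _ => (integral_indicator (hB.inter (hIm j))).symm
    rw [e1]
    exact integral_mono (hint0.indicator hB)
      (integrable_finsetSum _ fun j _ => (hint j).indicator (hB.inter (hIm j))) hpt
  have hfin : ∀ j, volume (B ∩ I j) ≠ ⊤ := fun j =>
    ne_top_of_le_ne_top (by simp only [hI]; rw [Real.volume_Ico]; exact ENNReal.ofReal_ne_top) (measure_mono inter_subset_right)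
  have hstep2 : ∀ j ∈ Finset.range n, ∫ t in B ∩ I j, wt g.h (y j) U t * Φ t ≤
      ε1 * U + C0 / η * (volume (B ∩ I j)).toReal := by
    intro j _
    have hnnv : 0 ≤ C0 / η * (volume (B ∩ I j)).toReal := mul_nonneg (by positivity) ENNReal.toReal_nonneg
    by_cases hv : volume (B ∩ I j) ≤ ENNReal.ofReal (η * U)
    · linarith [h2 (y j) (B ∩ I j) (hB.inter (hIm j)) hv]
    · have hv1 : η * U ≤ (volume (B ∩ I j)).toReal := by
        rw [not_le] at hv
        exact (ENNReal.ofReal_le_iff_le_toReal (hfin j)).1 hv.le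
      have hv2 : ∫ t in B ∩ I j, wt g.h (y j) U t * Φ t ≤ C0 * U :=
        (setIntegral_le_integral (hint j) (Filter.Eventually.of_forall fun t => mul_nonneg (hwt0 _ _ _) (hΦ0 t))).trans
          (h1 (y j))
      have hv3 : C0 * U ≤ C0 / η * (volume (B ∩ I j)).toReal := by
        calc C0 * U = C0 / η * (η * U) := by field_simp
          _ ≤ _ := mul_le_mul_of_nonneg_left hv1 (by positivity)
      have hv4 : 0 ≤ ε1 * U := mul_nonneg hε1 hU0.le
      linarith
  have hdisj : (↑(Finset.range n) : Set ℕ).PairwiseDisjoint (fun j => B ∩ I j) := by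
    have key : ∀ i j : ℕ, i < j → Disjoint (B ∩ I i) (B ∩ I j) := by
      intro i j hij
      rw [Set.disjoint_left]
      rintro t ⟨_, h3⟩ ⟨_, h4⟩
      simp only [hI, mem_Ico] at h3 h4
      have h5 : ((i : ℝ) + 1) ≤ j := by exact_mod_cast hij
      have h6 := mul_le_mul_of_nonneg_right h5 (by positivity : 0 ≤ U / 4)
      linarith [h3.2, h4.1]
    intro i _ j _ hij
    rcases lt_or_gt_of_ne hij with h | h
    · exact key i j h
    · exact (key j i h).symm
  have hstep3 : ∑ j ∈ Finset.range n, (volume (B ∩ I j)).toReal ≤ η' * x := by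
    rw [← ENNReal.toReal_sum fun j _ => hfin j, ← measure_biUnion_finset hdisj fun j _ => hB.inter (hIm j)]
    have h3 : volume (⋃ j ∈ Finset.range n, B ∩ I j) ≤ ENNReal.ofReal (η' * x) :=
      (measure_mono (iUnion₂_subset fun j _ => inter_subset_left)).trans hBv
    calc (volume (⋃ j ∈ Finset.range n, B ∩ I j)).toReal ≤ (ENNReal.ofReal (η' * x)).toReal :=
          ENNReal.toReal_mono ENNReal.ofReal_ne_top h3
      _ = η' * x := ENNReal.toReal_ofReal (by positivity)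
  calc ∫ t in B, wt g.h x x t * Φ t ≤ ∑ j ∈ Finset.range n, (ε1 * U + C0 / η * (volume (B ∩ I j)).toReal) :=
        hstep1.trans (Finset.sum_le_sum hstep2)
    _ = n * (ε1 * U) + C0 / η * ∑ j ∈ Finset.range n, (volume (B ∩ I j)).toReal := by
        rw [Finset.sum_add_distrib, Finset.sum_const, Finset.card_range, nsmul_eq_mul, ← Finset.mul_sum]
    _ ≤ 4 * U * (ε1 * U) + C0 / η * (η' * x) := by
        refine add_le_add ?_ (mul_le_mul_of_nonneg_left hstep3 (by positivity))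
        exact mul_le_mul_of_nonneg_right hn4 (mul_nonneg hε1 hU0.le)
    _ = 4 * ε1 * x + C0 / η * (η' * x) := by
        rw [hxU]
        ring

/-- from windows of length `x^(1/2)` to the window `[x, 2x]` -/
theorem uiw_of_uis {g : TF} (hg : GoodG g) (f : TF) {F : ℝ → ℝ → ℝ} (hF : ∀ T, Continuous (F T)) (h : UIS g f 2 F) :
    UIW g (fun x t => |F (x ^ ((1 : ℝ) / 2)) t| * (1 + |pss f.h 2 (x ^ ((1 : ℝ) / 2)) t|)) := by
  obtain ⟨⟨C0, hC0, h1⟩, h2⟩ := h
  have htend : Tendsto (fun x : ℝ => x ^ ((1 : ℝ) / 2)) atTop atTop := tendsto_rpow_atTop (by norm_num)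
  have hcont : ∀ T : ℝ, Continuous (fun t => |F T t| * (1 + |pss f.h 2 T t|)) := fun T =>
    (hF T).abs.mul (continuous_const.add (pss_cont f.h 2 T).abs)
  have hnn : ∀ T t : ℝ, 0 ≤ |F T t| * (1 + |pss f.h 2 T t|) := fun T t => by positivity
  have habs : ∀ T t : ℝ, |(|F T t| * (1 + |pss f.h 2 T t|))| = |F T t| * (1 + |pss f.h 2 T t|) := fun T t =>
    abs_of_nonneg (hnn T t)
  have hsq : ∀ x : ℝ, 0 < x → x = x ^ ((1 : ℝ) / 2) * x ^ ((1 : ℝ) / 2) := by
    intro x hx
    rw [← Real.rpow_add hx]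
    norm_num
  have hmain : ∀ ε1 : ℝ, 0 < ε1 → ∃ η : ℝ, 0 < η ∧ ∀ η' : ℝ, 0 ≤ η' → ∀ᶠ x : ℝ in atTop, ∀ B : Set ℝ, MeasurableSet B →
      volume B ≤ ENNReal.ofReal (η' * x) →
      ∫ t in B, wt g.h x x t * (|F (x ^ ((1 : ℝ) / 2)) t| * (1 + |pss f.h 2 (x ^ ((1 : ℝ) / 2)) t|)) ≤
        4 * ε1 * x + C0 / η * (η' * x) := by
    intro ε1 hε1
    obtain ⟨η, hη, h3⟩ := h2 ε1 hε1
    refine ⟨η, hη, fun η' hη' => ?_⟩
    filter_upwards [htend.eventually h1, htend.eventually h3, htend.eventually_ge_atTop 1, eventually_gt_atTop (0:ℝ)]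
      with x hx1 hx3 hxU hx0 B hB hBv
    exact ui_core hg hxU (hsq x hx0) (hcont _) (hnn _) hC0 hη hε1.le hη' hx1 hx3 hB hBv
  constructor
  · obtain ⟨η, hη, h3⟩ := hmain 1 one_pos
    refine ⟨4 + C0 / η * (1 / 2), by positivity, ?_⟩
    filter_upwards [h3 (1 / 2) (by norm_num), eventually_gt_atTop (0:ℝ)] with x hx hx0
    have h4 := hx (Icc (x + x * (1 / 2 - g.th)) (x + x * (1 / 2 + g.th))) measurableSet_Icc (by
      rw [Real.volume_Icc, hg.1]
      exact ENNReal.ofReal_le_ofReal (by linarith))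
    have h5 : ∫ t, wt g.h x x t * |(|F (x ^ ((1 : ℝ) / 2)) t| * (1 + |pss f.h 2 (x ^ ((1 : ℝ) / 2)) t|))| =
        ∫ t in Icc (x + x * (1 / 2 - g.th)) (x + x * (1 / 2 + g.th)),
          wt g.h x x t * (|F (x ^ ((1 : ℝ) / 2)) t| * (1 + |pss f.h 2 (x ^ ((1 : ℝ) / 2)) t|)) := by
      simp only [habs]
      refine (setIntegral_eq_integral_of_forall_compl_eq_zero fun t ht => ?_).symm
      rw [wt_zero g x hx0 ht, zero_mul]
    rw [h5]
    refine h4.trans (le_of_eq (by ring))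
  · intro ε hε
    obtain ⟨η, hη, h3⟩ := hmain (ε / 8) (by positivity)
    refine ⟨η * ε / (2 * C0), by positivity, ?_⟩
    filter_upwards [h3 (η * ε / (2 * C0)) (by positivity)] with x hx B hB hBv
    simp only [habs]
    refine (hx B hB hBv).trans (le_of_eq ?_)
    field_simp
    ring

/-- U -/
theorem ui_FKW (P : PQ.Par) (g : TF) (hg : GoodG g) {k : ℕ} {f : TF} (hf : PQ.KF P k f) :
    UIW g (fun x t => |PQ.FK P k (x ^ ((1 : ℝ) / 2)) t| * (1 + |pss f.h 2 (x ^ ((1 : ℝ) / 2)) t|)) :=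
  uiw_of_uis hg f (fun T => PQ.FK_cont P k T) (Pool.Agent.Helper69.PQ.SI.ui_FKS P g hg.1 hg.2.1 hg.2.2.1 hf)

end Pool.Agent.Helper7.ES
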