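import Pool.Agent.Helper7.ES.N3
import Pool.Agent.Helper7.ES.UI
import Pool.Agent.Helper69.ES.Easy
import Pool.Agent.Helper22.SI.E1S

/-!
# ES: the law of large numbers for `|M|²`
-/

open MeasureTheory Set Filter Topology
open Pool.Agent.Helper57.Zeta Pool.Agent.Helper57.PC Pool.Agent.Helper57.LH Pool.Agent.Helper78.SG
open Pool.Agent.Helper4.SH Pool.Agent.Helper69.PP Pool.Agent.Helper22.SI
open Pool.Agent.Helper69.SM (wt wt_cont)
open Pool.Agent.Helper69.ES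
open Pool.Agent.Helper69
open scoped Interval

namespace Pool.Agent.Helper7.ES

private theorem hx_tend : Tendsto (fun x : ℝ => x ^ ((1 : ℝ) / 2)) atTop atTop := tendsto_rpow_atTop (by norm_num)

/-- domination by a finite sum -/
theorem uiw_dom {g : TF} (hg : GoodG g) {ι : Type} (s : Finset ι) (F : ℝ → ℝ → ℝ) (H : ι → ℝ → ℝ → ℝ)
    (hH : ∀ k ∈ s, ∀ x, Continuous (H k x)) (hui : ∀ k ∈ s, UIW g (H k)) (hle : ∀ x t, |F x t| ≤ ∑ k ∈ s, |H k x t|) :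
    UIW g F := by
  have hwt0 : ∀ x t, 0 ≤ wt g.h x x t := fun x t => hg.2.1 _
  have hint : ∀ k ∈ s, ∀ x, 0 < x → Integrable (fun t => wt g.h x x t * |H k x t|) := fun k hk x hx =>
    wtI g x hx (hH k hk x).abs
  have hintS : ∀ x, 0 < x → Integrable (fun t => ∑ k ∈ s, wt g.h x x t * |H k x t|) := fun x hx =>
    integrable_finsetSum _ fun k hk => hint k hk x hx
  have hpt : ∀ x t, wt g.h x x t * |F x t| ≤ ∑ k ∈ s, wt g.h x x t * |H k x t| := by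
    intro x t
    rw [← Finset.mul_sum]
    exact mul_le_mul_of_nonneg_left (hle x t) (hwt0 x t)
  constructor
  · have h1 : ∀ k ∈ s, ∃ C : ℝ, 0 < C ∧ ∀ᶠ x : ℝ in atTop, ∫ t, wt g.h x x t * |H k x t| ≤ C * x := fun k hk => (hui k hk).1
    choose! C hC hCx using h1
    refine ⟨∑ k ∈ s, C k + 1, by
      have : 0 ≤ ∑ k ∈ s, C k := Finset.sum_nonneg fun k hk => (hC k hk).le
      linarith, ?_⟩
    filter_upwards [(Filter.eventually_all_finset s).2 hCx, eventually_gt_atTop (0:ℝ)] with x hx hx0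
    calc ∫ t, wt g.h x x t * |F x t| ≤ ∫ t, ∑ k ∈ s, wt g.h x x t * |H k x t| :=
          integral_mono_of_nonneg (Eventually.of_forall fun t => mul_nonneg (hwt0 x t) (abs_nonneg _)) (hintS x hx0)
            (Eventually.of_forall fun t => hpt x t)
      _ = ∑ k ∈ s, ∫ t, wt g.h x x t * |H k x t| := integral_finsetSum _ fun k hk => hint k hk x hx0
      _ ≤ ∑ k ∈ s, C k * x := Finset.sum_le_sum fun k hk => hx k hk
      _ ≤ (∑ k ∈ s, C k + 1) * x := by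
          rw [← Finset.sum_mul]
          nlinarith
  · intro ε hε
    have hc : 0 < (s.card : ℝ) + 1 := by positivity
    have h1 : ∀ k ∈ s, ∃ η : ℝ, 0 < η ∧ ∀ᶠ x : ℝ in atTop, ∀ B : Set ℝ, MeasurableSet B →
        volume B ≤ ENNReal.ofReal (η * x) → ∫ t in B, wt g.h x x t * |H k x t| ≤ ε / ((s.card : ℝ) + 1) * x := fun k hk =>
      (hui k hk).2 _ (by positivity)
    choose! η hη hηx using h1
    obtain ⟨η0, hη0, hη0le⟩ : ∃ η0 : ℝ, 0 < η0 ∧ ∀ k ∈ s, η0 ≤ η k := by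
      classical
      by_cases hs : s.Nonempty
      · obtain ⟨k, hk, hkm⟩ := Finset.exists_min_image s η hs
        exact ⟨η k, hη k hk, hkm⟩
      · refine ⟨1, one_pos, fun k hk => absurd ⟨k, hk⟩ hs⟩
    refine ⟨η0, hη0, ?_⟩
    filter_upwards [(Filter.eventually_all_finset s).2 hηx, eventually_gt_atTop (0:ℝ)] with x hx hx0 B hB hBv
    calc ∫ t in B, wt g.h x x t * |F x t| ≤ ∫ t in B, ∑ k ∈ s, wt g.h x x t * |H k x t| :=
          integral_mono_of_nonneg (Eventually.of_forall fun t => mul_nonneg (hwt0 x t) (abs_nonneg _))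
            (hintS x hx0).integrableOn (Eventually.of_forall fun t => hpt x t)
      _ = ∑ k ∈ s, ∫ t in B, wt g.h x x t * |H k x t| := integral_finsetSum _ fun k hk => (hint k hk x hx0).integrableOn
      _ ≤ ∑ k ∈ s, ε / ((s.card : ℝ) + 1) * x := Finset.sum_le_sum fun k hk => hx k hk B hB
            (hBv.trans (ENNReal.ofReal_le_ofReal (mul_le_mul_of_nonneg_right (hη0le k hk) hx0.le)))
      _ ≤ ε * x := by
          rw [Finset.sum_const, nsmul_eq_mul]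
          have h2 : (s.card : ℝ) * (ε / ((s.card : ℝ) + 1) * x) = (s.card : ℝ) / ((s.card : ℝ) + 1) * (ε * x) := by
            field_simp
          rw [h2]
          have h3 : (s.card : ℝ) / ((s.card : ℝ) + 1) ≤ 1 := (div_le_one hc).2 (by linarith)
          nlinarith [mul_pos hε hx0]

/-- `|M|²` is bounded by a power of `x` below `x` -/
theorem crude_FF (P : PQ.Par) : Crude (fun x t => PQ.FF P (x ^ ((1 : ℝ) / 2)) t) := by
  refine ⟨1 / 2, 16, by norm_num, by norm_num, ?_⟩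
  filter_upwards [hx_tend.eventually (PQ.FF_crude P), eventually_ge_atTop (1:ℝ)] with x hx hx1 t
  refine (hx t).trans ?_
  have h1 : (x ^ ((1 : ℝ) / 2)) ^ ((4199 : ℝ) / 4200) ≤ x ^ ((1 : ℝ) / 2) := by
    rw [← Real.rpow_mul (by linarith)]
    exact Real.rpow_le_rpow_of_exponent_le hx1 (by norm_num)
  linarith

theorem uiw_FF (P : PQ.Par) (f : ℕ → TF) (hf : ∀ k ∈ PQ.KR P, PQ.KF P k (f k)) {g : TF} (hg : GoodG g) :
    UIW g (fun x t => PQ.FF P (x ^ ((1 : ℝ) / 2)) t) := by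
  refine uiw_dom hg (PQ.KR P) _ (fun k x t => |PQ.FK P k (x ^ ((1 : ℝ) / 2)) t| * (1 + |pss (f k).h 2 (x ^ ((1 : ℝ) / 2)) t|))
    (fun k _ x => (PQ.FK_cont P k _).abs.mul (continuous_const.add (pss_cont (f k).h 2 _).abs))
    (fun k hk => ui_FKW P g hg (hf k hk)) fun x t => ?_
  rw [PQ.FF_eq]
  refine (Finset.abs_sum_le_sum_abs _ _).trans (Finset.sum_le_sum fun k _ => ?_)
  rw [abs_of_nonneg (by positivity : 0 ≤ |PQ.FK P k (x ^ ((1 : ℝ) / 2)) t| * (1 + |pss (f k).h 2 (x ^ ((1 : ℝ) / 2)) t|))]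
  have h1 := abs_nonneg (PQ.FK P k (x ^ ((1 : ℝ) / 2)) t)
  have h2 := abs_nonneg (pss (f k).h 2 (x ^ ((1 : ℝ) / 2)) t)
  nlinarith [mul_nonneg h1 h2]

private theorem ff_form (P : PQ.Par) (T t : ℝ) : PQ.FF P T t = ∑ z ∈ PQ.IX P T ×ˢ PQ.IX P T, cfn z.1 * cfn z.2 *
    Real.cos (t * (Real.log ((z.1.1 * z.2.2 : ℕ) : ℝ) - Real.log ((z.1.2 * z.2.1 : ℕ) : ℝ))) := by
  rw [Finset.sum_product, PQ.FF]
  refine Finset.sum_congr rfl fun x hx => Finset.sum_congr rfl fun y hy => ?_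
  obtain ⟨a1, a2⟩ := PQ.IX_ne hx
  obtain ⟨b1, b2⟩ := PQ.IX_ne hy
  have a1' : (x.1 : ℝ) ≠ 0 := by exact_mod_cast a1
  have a2' : (x.2 : ℝ) ≠ 0 := by exact_mod_cast a2
  have b1' : (y.1 : ℝ) ≠ 0 := by exact_mod_cast b1
  have b2' : (y.2 : ℝ) ≠ 0 := by exact_mod_cast b2
  simp only [Nat.cast_mul]
  rw [Real.log_mul a1' b2', Real.log_mul a2' b1', phn, phn]
  congr 2
  ring

private theorem cfn_sq' {x : ℕ × ℕ} : cfn x * cfn x = 1 / ((x.1 : ℝ) * x.2) := by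
  unfold cfn
  have h0 : (0 : ℝ) ≤ (x.1 : ℝ) * x.2 := by positivity
  have h1 := PQ.lam_mul_self x.1
  have h2 := PQ.lam_mul_self x.2
  rw [div_mul_div_comm, Real.mul_self_sqrt h0]
  congr 1
  calc lam x.1 * lam x.2 * (lam x.1 * lam x.2) = (lam x.1 * lam x.1) * (lam x.2 * lam x.2) := by ring
    _ = 1 := by rw [h1, h2, one_mul]

theorem ff_diag (P : PQ.Par) (T : ℝ) : (∑ z ∈ PQ.IX P T ×ˢ PQ.IX P T, (if z.1.1 * z.2.2 = z.1.2 * z.2.1 then
    cfn z.1 * cfn z.2 else 0)) = PQ.AT P T := by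
  rw [Finset.sum_product, PQ.AT]
  refine Finset.sum_congr rfl fun x hx => ?_
  rw [Finset.sum_eq_single_of_mem x hx]
  · simp only
    rw [if_pos (mul_comm _ _), cfn_sq']
  · intro y hy hyx
    rw [if_neg]
    intro h
    exact hyx (PQ.diag_eq hx hy h).symm

open Classical in
/-- the diagonal sum is a part of the sum in `corr` -/
theorem dg_le (P : PQ.Par) {x : ℝ} (hx0 : 0 < x) (hU : 1 < x ^ ((1 : ℝ) / 2)) (θ : ℝ) :
    ∑ z ∈ PQ.IX P (x ^ ((1 : ℝ) / 2)) ×ˢ PQ.IX P (x ^ ((1 : ℝ) / 2)), ∑ z' ∈ PQ.IX P (x ^ ((1 : ℝ) / 2)) ×ˢ PQ.IX P (x ^ ((1 : ℝ) / 2)),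
      (if cnd θ x (z.1.1 * z.2.2) (z.1.2 * z.2.1) (z'.1.1 * z'.2.2) (z'.1.2 * z'.2.1) then
        |cfn z.1 * cfn z.2| * |cfn z'.1 * cfn z'.2| else 0) ≤
    ∑ i ∈ IQ P (x ^ ((1 : ℝ) / 2)), ∑ j ∈ IQ P (x ^ ((1 : ℝ) / 2)),
      (if cnd (2 * θ) (x ^ ((1 : ℝ) / 2)) (aq i) (bq i) (aq j) (bq j) then wq (x ^ ((1 : ℝ) / 2)) i * wq (x ^ ((1 : ℝ) / 2)) j
        else 0) := by
  set U : ℝ := x ^ ((1 : ℝ) / 2) with hUdef
  have hlog : Real.log U = Real.log x / 2 := by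
    rw [hUdef, Real.log_rpow hx0]
    ring
  have hL : 0 < Real.log U := Real.log_pos hU
  have hw0 : ∀ i, 0 ≤ wq U i := by
    intro i
    unfold wq
    have h7 : 0 ≤ (if i.2 = 1 then (1:ℝ) else ArithmeticFunction.vonMangoldt i.2 / Real.log U) := Vk_nonneg hU i.2
    positivity
  have hemb : ∀ z ∈ PQ.IX P U ×ˢ PQ.IX P U, ((z, 1) : I3) ∈ IQ P U := by
    intro z hz
    unfold IQ
    rw [Finset.mem_product, Finset.mem_Icc]
    exact ⟨hz, le_rfl, (Nat.one_le_floor_iff U).2 hU.le⟩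
  have hwz : ∀ z : (ℕ × ℕ) × (ℕ × ℕ), wq U (z, 1) = |cfn z.1 * cfn z.2| := by
    intro z
    unfold wq
    simp only [if_true, Nat.cast_one, Real.sqrt_one, div_one, mul_one]
    rw [abs_mul]
  have hcz : ∀ z z' : (ℕ × ℕ) × (ℕ × ℕ), cnd θ x (z.1.1 * z.2.2) (z.1.2 * z.2.1) (z'.1.1 * z'.2.2) (z'.1.2 * z'.2.1) ↔
      cnd (2 * θ) U (aq (z, 1)) (bq (z, 1)) (aq (z', 1)) (bq (z', 1)) := by
    intro z z'
    unfold cnd aq bq
    simp only [mul_one]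
    rw [hlog, show 2 * θ * (Real.log x / 2) = θ * Real.log x by ring]
  have hinj : ∀ G : I3 → ℝ, (∀ i, 0 ≤ G i) → ∑ z ∈ PQ.IX P U ×ˢ PQ.IX P U, G (z, 1) ≤ ∑ i ∈ IQ P U, G i := by
    intro G hG
    rw [← Finset.sum_image (f := G) (g := fun z : (ℕ × ℕ) × (ℕ × ℕ) => ((z, 1) : I3)) (fun z _ z' _ he => (Prod.ext_iff.1 he).1)]
    refine Finset.sum_le_sum_of_subset_of_nonneg ?_ fun i _ _ => hG i
    intro i hi
    obtain ⟨z, hz, rfl⟩ := Finset.mem_image.1 hi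
    exact hemb z hz
  have hterm : ∀ i j : I3, 0 ≤ (if cnd (2 * θ) U (aq i) (bq i) (aq j) (bq j) then wq U i * wq U j else 0) := by
    intro i j
    split_ifs
    · exact mul_nonneg (hw0 i) (hw0 j)
    · exact le_rfl
  calc ∑ z ∈ PQ.IX P U ×ˢ PQ.IX P U, ∑ z' ∈ PQ.IX P U ×ˢ PQ.IX P U,
        (if cnd θ x (z.1.1 * z.2.2) (z.1.2 * z.2.1) (z'.1.1 * z'.2.2) (z'.1.2 * z'.2.1) then
          |cfn z.1 * cfn z.2| * |cfn z'.1 * cfn z'.2| else 0)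
      = ∑ z ∈ PQ.IX P U ×ˢ PQ.IX P U, ∑ z' ∈ PQ.IX P U ×ˢ PQ.IX P U,
        (if cnd (2 * θ) U (aq (z, 1)) (bq (z, 1)) (aq (z', 1)) (bq (z', 1)) then wq U (z, 1) * wq U (z', 1) else 0) := by
        refine Finset.sum_congr rfl fun z _ => Finset.sum_congr rfl fun z' _ => ?_
        rw [hwz, hwz]
        by_cases hc : cnd θ x (z.1.1 * z.2.2) (z.1.2 * z.2.1) (z'.1.1 * z'.2.2) (z'.1.2 * z'.2.1)
        · rw [if_pos hc, if_pos ((hcz z z').1 hc)]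
        · rw [if_neg hc, if_neg fun h' => hc ((hcz z z').2 h')]
    _ ≤ ∑ z ∈ PQ.IX P U ×ˢ PQ.IX P U, ∑ j ∈ IQ P U,
        (if cnd (2 * θ) U (aq (z, 1)) (bq (z, 1)) (aq j) (bq j) then wq U (z, 1) * wq U j else 0) :=
        Finset.sum_le_sum fun z _ => hinj (fun j => if cnd (2 * θ) U (aq (z, 1)) (bq (z, 1)) (aq j) (bq j) then
          wq U (z, 1) * wq U j else 0) fun j => hterm _ _
    _ ≤ ∑ i ∈ IQ P U, ∑ j ∈ IQ P U, (if cnd (2 * θ) U (aq i) (bq i) (aq j) (bq j) then wq U i * wq U j else 0) :=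
        hinj (fun i => ∑ j ∈ IQ P U, (if cnd (2 * θ) U (aq i) (bq i) (aq j) (bq j) then wq U i * wq U j else 0))
          fun i => Finset.sum_nonneg fun j _ => hterm _ _

/-- the trigonometric sum -/
theorem rep_FF (P : PQ.Par) : Rep (fun x t => PQ.FF P (x ^ ((1 : ℝ) / 2)) t)
    (fun x => PQ.IX P (x ^ ((1 : ℝ) / 2)) ×ˢ PQ.IX P (x ^ ((1 : ℝ) / 2))) (fun _ z => cfn z.1 * cfn z.2)
    (fun z => z.1.1 * z.2.2) (fun z => z.1.2 * z.2.1) := by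
  classical
  refine ⟨Eventually.of_forall fun x t => ff_form P _ t, ?_, ?_, ?_⟩
  · filter_upwards [hx_tend.eventually_gt_atTop 1, eventually_gt_atTop (0:ℝ)] with x hU hx0 z hz
    rw [Finset.mem_product] at hz
    obtain ⟨a1, a2⟩ := PQ.IX_ne hz.1
    obtain ⟨b1, b2⟩ := PQ.IX_ne hz.2
    have hpos : ∀ n : ℕ, n ≠ 0 → 1 ≤ n := fun n hn => Nat.one_le_iff_ne_zero.2 hn
    refine ⟨hpos _ (mul_ne_zero a1 b2), hpos _ (mul_ne_zero a2 b1), ?_⟩
    have h1 := PQ.NB_le hU (PQ.mem_IX.1 hz.1).2.1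
    have h2 := PQ.NA_le hU (PQ.mem_IX.1 hz.2).1
    have h3 : ((min (z.1.1 * z.2.2) (z.1.2 * z.2.1) : ℕ) : ℝ) ≤ ((z.1.2 * z.2.1 : ℕ) : ℝ) := by
      exact_mod_cast min_le_right _ _
    refine h3.trans ?_
    rw [Nat.cast_mul]
    calc (z.1.2 : ℝ) * z.2.1 ≤ (x ^ ((1 : ℝ) / 2)) ^ ((2099 : ℝ) / 4200) * (x ^ ((1 : ℝ) / 2)) ^ ((1 : ℝ) / 2) :=
          mul_le_mul h1 h2 (Nat.cast_nonneg _) (Real.rpow_nonneg (Real.rpow_nonneg hx0.le _) _)
      _ = x ^ ((1 : ℝ) / 2 - 1 / 8400) := by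
          rw [← Real.rpow_mul hx0.le, ← Real.rpow_mul hx0.le, ← Real.rpow_add hx0]
          norm_num
  · filter_upwards [hx_tend.eventually (PQ.sum_cf P), eventually_ge_atTop (16:ℝ)] with x hx hx1
    have hx0 : 0 < x := by linarith
    rw [Finset.sum_product]
    simp only [abs_mul]
    rw [← Finset.sum_mul_sum]
    have h0 : 0 ≤ ∑ z ∈ PQ.IX P (x ^ ((1 : ℝ) / 2)), |cfn z| := Finset.sum_nonneg fun z _ => abs_nonneg _
    have h1 : (x ^ ((1 : ℝ) / 2)) ^ ((4199 : ℝ) / 8400) ≤ x ^ ((1 : ℝ) / 2) := by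
      rw [← Real.rpow_mul hx0.le]
      exact Real.rpow_le_rpow_of_exponent_le (by linarith) (by norm_num)
    have h2 : x ^ ((1 : ℝ) / 2) * x ^ ((1 : ℝ) / 2) = x := by
      rw [← Real.rpow_add hx0]
      norm_num
    calc (∑ z ∈ PQ.IX P (x ^ ((1 : ℝ) / 2)), |cfn z|) * ∑ z ∈ PQ.IX P (x ^ ((1 : ℝ) / 2)), |cfn z|
        ≤ (4 * x ^ ((1 : ℝ) / 2)) * (4 * x ^ ((1 : ℝ) / 2)) := mul_self_le_mul_self h0 (by linarith)
      _ = 16 * (x ^ ((1 : ℝ) / 2) * x ^ ((1 : ℝ) / 2)) := by ring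
      _ = 16 * x := by rw [h2]
      _ ≤ x ^ (2 : ℝ) := by
          rw [show (2 : ℝ) = ((2 : ℕ) : ℝ) by norm_num, Real.rpow_natCast]
          nlinarith
  · intro ε hε
    obtain ⟨θ, hθ, h⟩ := corr P hε
    refine ⟨θ / 2, by positivity, ?_⟩
    filter_upwards [hx_tend.eventually h, hx_tend.eventually_gt_atTop 1, eventually_gt_atTop (1:ℝ)] with x hx hU hx1
    refine (dg_le P (by linarith) hU (θ / 2)).trans ?_
    rw [mul_div_cancel₀ θ (by norm_num : (2:ℝ) ≠ 0)]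
    exact hx

theorem law_FF_of
    (law_of : ∀ {ι : Type} {F : ℝ → ℝ → ℝ} {S : ℝ → Finset ι} {c : ℝ → ι → ℝ} {a b : ι → ℕ} (g : TF), GoodG g →
      Rep F S c a b → (∀ x, Continuous (F x)) → Crude F → UIW g F →
      LLN F (fun x => ∑ i ∈ S x, if a i = b i then c x i else 0))
    (P : PQ.Par) (f : ℕ → TF) (hf : ∀ k ∈ PQ.KR P, PQ.KF P k (f k)) :
    LLN (fun x t => PQ.FF P (x ^ ((1 : ℝ) / 2)) t) (fun x => PQ.AT P (x ^ ((1 : ℝ) / 2))) := by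
  obtain ⟨g, hg⟩ := exists_gg
  have h := law_of g hg (rep_FF P) (fun x => PQ.FF_cont P _) (crude_FF P) (uiw_FF P f hf hg)
  have e : (fun x : ℝ => PQ.AT P (x ^ ((1 : ℝ) / 2))) = fun x : ℝ => ∑ z ∈ PQ.IX P (x ^ ((1 : ℝ) / 2)) ×ˢ PQ.IX P (x ^ ((1 : ℝ) / 2)),
      (if z.1.1 * z.2.2 = z.1.2 * z.2.1 then cfn z.1 * cfn z.2 else 0) := by
    funext x
    exact (ff_diag P _).symm
  rw [e]
  exact h

end Pool.Agent.Helper7.ES
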