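import Pool.Agent.Helper25.UG.Me
import Pool.Agent.Helper69.PQ.MomSum

/-!
# ES: sums over rough numbers, and over pairs of rough numbers with given quotient
-/

set_option autoImplicit false

open MeasureTheory Set Filter Topology
open Pool.Agent.Helper25.UG (PPm mert1)
open Pool.Agent.Helper69.PP (RF)

namespace Pool.Agent.Helper7.ES

/-- Primes in a logarithmic window. -/
lemma logwin : ∃ C : ℝ, 0 < C ∧ ∀ a b : ℝ, a ≤ b → ∀ S : Finset ℕ,
    (∀ p ∈ S, p.Prime ∧ a ≤ Real.log p ∧ Real.log p ≤ b) → ∑ p ∈ S, Real.log p / p ≤ (b - a) + C := by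
  obtain ⟨C, hC, hm⟩ := mert1
  refine ⟨2 * C + 1, by positivity, fun a b hab S hS => ?_⟩
  have hlog2 : Real.log 2 ≤ 1 := by
    have := Real.log_two_lt_d9
    linarith
  have hnn : ∀ T : Finset ℕ, ∀ p ∈ T, 0 ≤ Real.log p / p := fun T p _ =>
    div_nonneg (Real.log_natCast_nonneg p) (Nat.cast_nonneg p)
  rcases lt_or_ge b 0 with hb | hb
  · have hS0 : S = ∅ := by
      rw [Finset.eq_empty_iff_forall_notMem]
      intro p hp
      obtain ⟨_, _, h3⟩ := hS p hp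
      have := Real.log_natCast_nonneg p
      linarith
    rw [hS0, Finset.sum_empty]
    linarith
  have hexpb : (1:ℝ) ≤ Real.exp b := Real.one_le_exp hb
  set N : ℕ := ⌊Real.exp b⌋₊ with hN
  have hN1 : 1 ≤ N := by
    rw [hN, Nat.one_le_floor_iff]
    exact hexpb
  have hNb : Real.log N ≤ b := by
    have h1 : (N : ℝ) ≤ Real.exp b := Nat.floor_le (Real.exp_pos b).le
    have h2 : (0:ℝ) < N := by exact_mod_cast hN1
    calc Real.log N ≤ Real.log (Real.exp b) := Real.log_le_log h2 h1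
      _ = b := Real.log_exp b
  have hSN : ∀ p ∈ S, p ∈ PPm N := by
    intro p hp
    obtain ⟨h1, _, h3⟩ := hS p hp
    have hp0 : (0:ℝ) < p := by exact_mod_cast h1.pos
    unfold PPm
    rw [Finset.mem_filter, Finset.mem_Icc]
    refine ⟨⟨h1.one_lt.le, ?_⟩, h1⟩
    rw [hN]
    apply Nat.le_floor
    rw [← Real.exp_log hp0]
    exact Real.exp_le_exp.mpr h3
  have hmN := abs_le.1 (hm N hN1)
  rcases le_or_gt a 0 with ha | ha
  · calc ∑ p ∈ S, Real.log p / p ≤ ∑ p ∈ PPm N, Real.log p / p :=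
          Finset.sum_le_sum_of_subset_of_nonneg hSN (fun p hp _ => hnn _ p hp)
      _ ≤ (b - a) + (2 * C + 1) := by linarith [hmN.2]
  set M : ℕ := ⌈Real.exp a⌉₊ - 1 with hM
  have hexpa : (1:ℝ) < Real.exp a := Real.one_lt_exp_iff.mpr ha
  have hc2 : 2 ≤ ⌈Real.exp a⌉₊ := by
    have h1 : 1 < ⌈Real.exp a⌉₊ := by
      rw [Nat.lt_ceil]
      exact_mod_cast hexpa
    omega
  have hM1 : 1 ≤ M := by omega
  have hMlt : (M : ℝ) < Real.exp a := by
    have h1 : M < ⌈Real.exp a⌉₊ := by omega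
    exact Nat.lt_ceil.mp h1
  have hM2 : Real.exp a ≤ 2 * M := by
    have h1 : Real.exp a ≤ (⌈Real.exp a⌉₊ : ℝ) := Nat.le_ceil _
    have h2 : ((⌈Real.exp a⌉₊ : ℕ) : ℝ) ≤ ((2 * M : ℕ) : ℝ) := by
      exact_mod_cast (by omega : ⌈Real.exp a⌉₊ ≤ 2 * M)
    push_cast at h2
    linarith
  have hMa : a - 1 ≤ Real.log M := by
    have hM0 : (0:ℝ) < M := by exact_mod_cast hM1
    have h1 : Real.log (Real.exp a) ≤ Real.log (2 * M) := Real.log_le_log (Real.exp_pos a) hM2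
    rw [Real.log_exp, Real.log_mul (by norm_num) hM0.ne'] at h1
    linarith
  have hMN : M ≤ N := by
    rw [hN]
    apply Nat.le_floor
    exact hMlt.le.trans (Real.exp_le_exp.mpr hab)
  have hsub : PPm M ⊆ PPm N := by
    intro p hp
    unfold PPm at hp ⊢
    rw [Finset.mem_filter, Finset.mem_Icc] at hp ⊢
    exact ⟨⟨hp.1.1, hp.1.2.trans hMN⟩, hp.2⟩
  have hSd : S ⊆ PPm N \ PPm M := by
    intro p hp
    rw [Finset.mem_sdiff]
    refine ⟨hSN p hp, fun h => ?_⟩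
    obtain ⟨h1, h2, _⟩ := hS p hp
    have hp0 : (0:ℝ) < p := by exact_mod_cast h1.pos
    unfold PPm at h
    rw [Finset.mem_filter, Finset.mem_Icc] at h
    have h3 : (p : ℝ) ≤ M := by exact_mod_cast h.1.2
    have h4 : Real.exp a ≤ p := by
      rw [← Real.exp_log hp0]
      exact Real.exp_le_exp.mpr h2
    linarith
  have hmM := abs_le.1 (hm M hM1)
  have h5 := Finset.sum_sdiff (f := fun p : ℕ => Real.log p / p) hsub
  calc ∑ p ∈ S, Real.log p / p ≤ ∑ p ∈ PPm N \ PPm M, Real.log p / p :=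
        Finset.sum_le_sum_of_subset_of_nonneg hSd (fun p hp _ => hnn _ p hp)
    _ ≤ (b - a) + (2 * C + 1) := by linarith [hmN.2, hmM.1]

/-- Primes `≥ T^δ` in a window of length `2 θ log T`. -/
lemma pwin {δ : ℝ} (hδ : 0 < δ) : ∃ C : ℝ, 0 < C ∧ ∀ T : ℝ, 1 < T → ∀ θ z : ℝ, 0 ≤ θ → ∀ S : Finset ℕ,
    (∀ p ∈ S, p.Prime ∧ T ^ δ ≤ (p : ℝ) ∧ |Real.log p + z| ≤ θ * Real.log T) →
    ∑ p ∈ S, 1 / (p : ℝ) ≤ C * (θ + 1 / Real.log T) := by
  obtain ⟨C, hC, h⟩ := logwin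
  refine ⟨(2 + C) / δ, by positivity, fun T hT θ z hθ S hS => ?_⟩
  have hL : 0 < Real.log T := Real.log_pos hT
  have hT0 : 0 < T := by linarith
  have h1 := h (-z - θ * Real.log T) (-z + θ * Real.log T) (by nlinarith) S (fun p hp => by
    obtain ⟨a1, _, a3⟩ := hS p hp
    have := abs_le.1 a3
    exact ⟨a1, by linarith [this.1], by linarith [this.2]⟩)
  have h2 : ∑ p ∈ S, 1 / (p : ℝ) ≤ (1 / (δ * Real.log T)) * ∑ p ∈ S, Real.log p / p := by
    rw [Finset.mul_sum]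
    refine Finset.sum_le_sum fun p hp => ?_
    obtain ⟨a1, a2, _⟩ := hS p hp
    have hp0 : (0:ℝ) < p := by exact_mod_cast a1.pos
    have h3 : δ * Real.log T ≤ Real.log p := by
      rw [← Real.log_rpow hT0]
      exact Real.log_le_log (Real.rpow_pos_of_pos hT0 δ) a2
    rw [div_mul_div_comm, one_mul, div_le_div_iff₀ hp0 (by positivity)]
    nlinarith
  refine h2.trans ?_
  have h4 : (1 / (δ * Real.log T)) * ∑ p ∈ S, Real.log p / p ≤
      (1 / (δ * Real.log T)) * (2 * (θ * Real.log T) + C) :=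
    mul_le_mul_of_nonneg_left (by linarith) (by positivity)
  refine h4.trans ?_
  have h5 : (1 / (δ * Real.log T)) * (2 * (θ * Real.log T) + C) = (2 * θ + C * (1 / Real.log T)) / δ := by
    field_simp
  rw [h5, div_mul_eq_mul_div]
  apply div_le_div_of_nonneg_right _ hδ.le
  have h6 : 0 < 1 / Real.log T := by positivity
  nlinarith [mul_nonneg hC.le hθ]

/-- Reciprocal sums of rough numbers. -/
lemma rsum {δ κ : ℝ} (hδ : 0 < δ) (hκ : δ ≤ κ) : ∃ C : ℝ, 0 < C ∧ ∀ᶠ T : ℝ in atTop, ∀ S : Finset ℕ,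
    (∀ n ∈ S, RF δ T n ∧ (n : ℝ) ≤ T ^ κ) → ∑ n ∈ S, 1 / (n : ℝ) ≤ C := by
  have hκ0 : 0 < κ := hδ.trans_le hκ
  obtain ⟨C, hC, h⟩ := Pool.Agent.Helper69.PQ.rough_sum (δ / κ) (by positivity) ((div_le_one hκ0).mpr hκ)
  refine ⟨C, hC, ?_⟩
  filter_upwards [(tendsto_rpow_atTop hκ0).eventually h, eventually_gt_atTop (0:ℝ)] with T hT hT0 S hS
  refine le_trans (Finset.sum_le_sum_of_subset_of_nonneg ?_ (fun _ _ _ => by positivity)) hT
  intro n hn
  obtain ⟨⟨h1, h2⟩, h3⟩ := hS n hn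
  rw [Finset.mem_filter, Finset.mem_Icc]
  refine ⟨⟨Nat.one_le_iff_ne_zero.mpr h1, Nat.le_floor h3⟩, fun p hp => ?_⟩
  rw [Nat.ceil_le, ← Real.rpow_mul hT0.le, mul_div_cancel₀ _ hκ0.ne']
  exact h2 p hp

/-- Quotients of rough numbers are rough. -/
lemma rf_dvd {δ T : ℝ} {m n : ℕ} (hn : RF δ T n) (h : m ∣ n) : RF δ T m := by
  refine ⟨fun h0 => hn.1 ?_, fun p hp => hn.2 p ?_⟩
  · rw [h0] at h
    exact Nat.eq_zero_of_zero_dvd h
  · exact Nat.primeFactors_mono h hn.1 hp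

lemma pair_one {δ κ : ℝ} (hδ : 0 < δ) (hκ : δ ≤ κ) : ∃ C : ℝ, 0 < C ∧ ∀ᶠ T : ℝ in atTop, ∀ θ z : ℝ, 0 ≤ θ →
    ∀ S : Finset (ℕ × ℕ), (∀ w ∈ S, RF δ T w.1 ∧ RF δ T w.2 ∧ (w.1 : ℝ) ≤ T ^ κ ∧ (w.2 : ℝ) ≤ T ^ κ ∧ w.1 ≠ 1 ∧
      |Real.log w.1 - Real.log w.2 + z| ≤ θ * Real.log T) →
    ∑ w ∈ S, 1 / ((w.1 : ℝ) * w.2) ≤ C * (θ + 1 / Real.log T) := by
  classical
  obtain ⟨C1, hC1, h1⟩ := rsum hδ hκ
  obtain ⟨C2, hC2, h2⟩ := pwin hδ
  refine ⟨C1 * C1 * C2, by positivity, ?_⟩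
  filter_upwards [h1, eventually_gt_atTop (1:ℝ)] with T hT hT1 θ z hθ S hS
  have hT0 : 0 < T := by linarith
  have hL : 0 < Real.log T := Real.log_pos hT1
  have hX : 0 ≤ θ + 1 / Real.log T := by positivity
  set R : Finset ℕ := (Finset.Icc 1 ⌊T ^ κ⌋₊).filter (fun n => RF δ T n) with hR
  have hRm : ∀ n ∈ R, RF δ T n ∧ (n : ℝ) ≤ T ^ κ := by
    intro n hn
    rw [hR, Finset.mem_filter, Finset.mem_Icc] at hn
    exact ⟨hn.2, (Nat.le_floor_iff (Real.rpow_pos_of_pos hT0 κ).le).1 hn.1.2⟩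
  have hRi : ∀ n : ℕ, RF δ T n → (n : ℝ) ≤ T ^ κ → n ∈ R := by
    intro n h3 h4
    rw [hR, Finset.mem_filter, Finset.mem_Icc]
    exact ⟨⟨Nat.one_le_iff_ne_zero.mpr h3.1, Nat.le_floor h4⟩, h3⟩
  have hRs : ∑ n ∈ R, 1 / (n : ℝ) ≤ C1 := hT R hRm
  have hR0 : 0 ≤ ∑ n ∈ R, 1 / (n : ℝ) := Finset.sum_nonneg fun _ _ => by positivity
  set g : ℕ × ℕ → ℕ × ℕ := fun w => (w.1 / w.1.minFac, w.2) with hg
  have hmaps : ∀ w ∈ S, g w ∈ R ×ˢ R := by
    intro w hw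
    obtain ⟨a1, a2, a3, a4, a5, a6⟩ := hS w hw
    rw [Finset.mem_product]
    refine ⟨hRi _ (rf_dvd a1 (Nat.div_dvd_of_dvd (Nat.minFac_dvd _))) (le_trans ?_ a3), hRi _ a2 a4⟩
    exact_mod_cast Nat.div_le_self _ _
  have hfac : ∀ w ∈ S, (w.1 : ℝ) = w.1.minFac * (g w).1 := by
    intro w hw
    rw [hg]
    exact_mod_cast (Nat.mul_div_cancel' (Nat.minFac_dvd w.1)).symm
  calc ∑ w ∈ S, 1 / ((w.1 : ℝ) * w.2)
      = ∑ q ∈ R ×ˢ R, ∑ w ∈ S.filter (fun w => g w = q), 1 / ((w.1 : ℝ) * w.2) :=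
        (Finset.sum_fiberwise_of_maps_to hmaps _).symm
    _ ≤ ∑ q ∈ R ×ˢ R, 1 / (q.1 : ℝ) * (1 / (q.2 : ℝ)) * (C2 * (θ + 1 / Real.log T)) := by
        refine Finset.sum_le_sum fun q hq => ?_
        have e1 : ∑ w ∈ S.filter (fun w => g w = q), 1 / ((w.1 : ℝ) * w.2) =
            1 / (q.1 : ℝ) * (1 / (q.2 : ℝ)) * ∑ w ∈ S.filter (fun w => g w = q), 1 / (w.1.minFac : ℝ) := by
          rw [Finset.mul_sum]
          refine Finset.sum_congr rfl fun w hw => ?_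
          rw [Finset.mem_filter] at hw
          rw [hfac w hw.1, hw.2, ← hw.2, hg]
          simp only [one_div, mul_inv]
          ring
        rw [e1]
        refine mul_le_mul_of_nonneg_left ?_ (by positivity)
        have hinj : Set.InjOn (fun w : ℕ × ℕ => w.1.minFac) (S.filter (fun w => g w = q) : Finset (ℕ × ℕ)) := by
          intro w hw w' hw' he
          rw [Finset.mem_coe, Finset.mem_filter] at hw hw'
          have f1 := Nat.mul_div_cancel' (Nat.minFac_dvd w.1)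
          have f2 := Nat.mul_div_cancel' (Nat.minFac_dvd w'.1)
          have f3 : (g w).1 = (g w').1 := by rw [hw.2, hw'.2]
          have f4 : (g w).2 = (g w').2 := by rw [hw.2, hw'.2]
          simp only [hg] at f3 f4
          simp only at he
          refine Prod.ext ?_ f4
          rw [← f1, ← f2, f3, he]
        rw [← Finset.sum_image (f := fun p : ℕ => 1 / (p : ℝ)) hinj]
        refine h2 T hT1 θ (Real.log q.1 - Real.log q.2 + z) hθ _ fun p hp => ?_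
        obtain ⟨w, hw, rfl⟩ := Finset.mem_image.1 hp
        rw [Finset.mem_filter] at hw
        obtain ⟨a1, a2, a3, a4, a5, a6⟩ := hS w hw.1
        have hpr : w.1.minFac.Prime := Nat.minFac_prime a5
        refine ⟨hpr, a1.2 _ (Nat.mem_primeFactors.2 ⟨hpr, Nat.minFac_dvd _, a1.1⟩), ?_⟩
        have hp0 : ((w.1.minFac : ℕ) : ℝ) ≠ 0 := by exact_mod_cast hpr.ne_zero
        have hq1 : ((g w).1 : ℝ) ≠ 0 := by
          have := (Finset.mem_product.1 (hmaps w hw.1)).1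
          exact_mod_cast (hRm _ this).1.1
        have f5 : Real.log w.1 = Real.log w.1.minFac + Real.log q.1 := by
          rw [hfac w hw.1, Real.log_mul hp0 hq1, hw.2]
        have f6 : (q.2 : ℝ) = w.2 := by rw [← hw.2]
        rw [f6]
        have f7 : Real.log (w.1.minFac : ℝ) + (Real.log q.1 - Real.log w.2 + z) = Real.log w.1 - Real.log w.2 + z := by
          rw [f5]
          ring
        rw [f7]
        exact a6
    _ = (∑ n ∈ R, 1 / (n : ℝ)) * (∑ n ∈ R, 1 / (n : ℝ)) * (C2 * (θ + 1 / Real.log T)) := by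
        rw [← Finset.sum_mul, Finset.sum_mul_sum, Finset.sum_product]
    _ ≤ C1 * C1 * (C2 * (θ + 1 / Real.log T)) := by
        refine mul_le_mul_of_nonneg_right ?_ (by positivity)
        exact mul_le_mul hRs hRs hR0 hC1.le
    _ = C1 * C1 * C2 * (θ + 1 / Real.log T) := by ring

/-- Pairs of rough numbers with given quotient, up to `T^(± θ)`. -/
theorem pair_sum {δ κ : ℝ} (hδ : 0 < δ) (hκ : δ ≤ κ) : ∃ C : ℝ, 0 < C ∧ ∀ᶠ T : ℝ in atTop, ∀ θ z : ℝ, 0 ≤ θ →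
    ∀ S : Finset (ℕ × ℕ), (∀ w ∈ S, RF δ T w.1 ∧ RF δ T w.2 ∧ (w.1 : ℝ) ≤ T ^ κ ∧ (w.2 : ℝ) ≤ T ^ κ ∧
      w ≠ (1, 1) ∧ |Real.log w.1 - Real.log w.2 + z| ≤ θ * Real.log T) →
    ∑ w ∈ S, 1 / ((w.1 : ℝ) * w.2) ≤ C * (θ + 1 / Real.log T) := by
  classical
  obtain ⟨C, hC, h⟩ := pair_one hδ hκ
  refine ⟨C + C, by positivity, ?_⟩
  filter_upwards [h] with T hT θ z hθ S hS
  have hsub : S ⊆ S.filter (fun w => w.1 ≠ 1) ∪ S.filter (fun w => w.2 ≠ 1) := by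
    intro w hw
    obtain ⟨a1, a2, a3, a4, a5, a6⟩ := hS w hw
    rw [Finset.mem_union, Finset.mem_filter, Finset.mem_filter]
    by_contra hcon
    push Not at hcon
    exact a5 (Prod.ext (hcon.1 hw) (hcon.2 hw))
  have hnn : ∀ w : ℕ × ℕ, 0 ≤ 1 / ((w.1 : ℝ) * w.2) := fun w => by positivity
  have h3 : ∑ w ∈ S.filter (fun w => w.1 ≠ 1), 1 / ((w.1 : ℝ) * w.2) ≤ C * (θ + 1 / Real.log T) := by
    refine hT θ z hθ _ fun w hw => ?_
    rw [Finset.mem_filter] at hw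
    obtain ⟨a1, a2, a3, a4, a5, a6⟩ := hS w hw.1
    exact ⟨a1, a2, a3, a4, hw.2, a6⟩
  have h4 : ∑ w ∈ S.filter (fun w => w.2 ≠ 1), 1 / ((w.1 : ℝ) * w.2) ≤ C * (θ + 1 / Real.log T) := by
    have h5 : ∑ w ∈ S.filter (fun w => w.2 ≠ 1), 1 / ((w.1 : ℝ) * w.2) =
        ∑ w ∈ (S.filter (fun w => w.2 ≠ 1)).image Prod.swap, 1 / ((w.1 : ℝ) * w.2) := by
      rw [Finset.sum_image (fun w _ w' _ he => Prod.swap_injective he)]
      refine Finset.sum_congr rfl fun w _ => ?_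
      rw [Prod.fst_swap, Prod.snd_swap, mul_comm]
    rw [h5]
    refine hT θ (-z) hθ _ fun w hw => ?_
    obtain ⟨w', hw', rfl⟩ := Finset.mem_image.1 hw
    rw [Finset.mem_filter] at hw'
    obtain ⟨a1, a2, a3, a4, a5, a6⟩ := hS w' hw'.1
    rw [Prod.fst_swap, Prod.snd_swap]
    refine ⟨a2, a1, a4, a3, hw'.2, ?_⟩
    have h6 : Real.log w'.2 - Real.log w'.1 + -z = -(Real.log w'.1 - Real.log w'.2 + z) := by ring
    rw [h6, abs_neg]
    exact a6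
  calc ∑ w ∈ S, 1 / ((w.1 : ℝ) * w.2)
      ≤ ∑ w ∈ S.filter (fun w => w.1 ≠ 1) ∪ S.filter (fun w => w.2 ≠ 1), 1 / ((w.1 : ℝ) * w.2) :=
        Finset.sum_le_sum_of_subset_of_nonneg hsub fun w _ _ => hnn w
    _ ≤ ∑ w ∈ S.filter (fun w => w.1 ≠ 1), 1 / ((w.1 : ℝ) * w.2) +
          ∑ w ∈ S.filter (fun w => w.2 ≠ 1), 1 / ((w.1 : ℝ) * w.2) := by
        rw [← Finset.sum_union_inter]
        have : 0 ≤ ∑ w ∈ S.filter (fun w => w.1 ≠ 1) ∩ S.filter (fun w => w.2 ≠ 1), 1 / ((w.1 : ℝ) * w.2) :=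
          Finset.sum_nonneg fun w _ => hnn w
        linarith
    _ ≤ (C + C) * (θ + 1 / Real.log T) := by linarith

end Pool.Agent.Helper7.ES
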