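import Pool.Agent.Helper7.ES.N1
import Pool.Agent.Helper69.ES.Defs

/-!
# ES: N1, N2 (rough numbers)
-/

open MeasureTheory Set Filter Topology
open Pool.Agent.Helper57.Zeta Pool.Agent.Helper57.PC Pool.Agent.Helper57.LH Pool.Agent.Helper78.SG
open Pool.Agent.Helper4.SH Pool.Agent.Helper69.PP Pool.Agent.Helper22.SI
open Pool.Agent.Helper69.SM (wt)
open Pool.Agent.Helper69.ES
open Pool.Agent.Helper69
open scoped Interval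

namespace Pool.Agent.Helper7.ES

lemma mem_RG {δ T Y : ℝ} {n : ℕ} : n ∈ RG δ T Y ↔ 1 ≤ n ∧ n ≤ ⌊Y⌋₊ ∧ ∀ p ∈ n.primeFactors, T ^ δ ≤ (p : ℝ) := by
  classical
  unfold RG
  rw [Finset.mem_filter, Finset.mem_Icc, and_assoc]

lemma RG_facts {δ T : ℝ} (hT : 1 < T) {n : ℕ} (hn : n ∈ RG δ T (T ^ (4 : ℝ))) :
    RF (min δ 4) T n ∧ (n : ℝ) ≤ T ^ (4 : ℝ) := by
  obtain ⟨h1, h2, h3⟩ := mem_RG.1 hn
  have hT0 : 0 < T := by linarith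
  refine ⟨⟨by omega, fun p hp => ?_⟩, (Nat.le_floor_iff (Real.rpow_pos_of_pos hT0 _).le).1 h2⟩
  exact (Real.rpow_le_rpow_of_exponent_le hT.le (min_le_left _ _)).trans (h3 p hp)

/-- N1 -/
theorem rough_sum {δ : ℝ} (hδ : 0 < δ) : ∃ C : ℝ, 0 < C ∧ ∀ᶠ U : ℝ in atTop,
    ∑ n ∈ RG δ U (U ^ (4 : ℝ)), 1 / (n : ℝ) ≤ C := by
  obtain ⟨C, hC, h⟩ := rsum (δ := min δ 4) (κ := 4) (lt_min hδ (by norm_num)) (min_le_right _ _)
  refine ⟨C, hC, ?_⟩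
  filter_upwards [h, eventually_gt_atTop (1:ℝ)] with T hT hT1
  exact hT _ fun n hn => RG_facts hT1 hn

open Classical in
/-- N2: one prime `≥ U^δ` lies in a window of logarithmic length `2 θ log U` -/
theorem rough_pair {δ : ℝ} (hδ : 0 < δ) : ∃ C : ℝ, 0 < C ∧ ∀ᶠ U : ℝ in atTop, ∀ θ : ℝ, 0 ≤ θ → ∀ z : ℝ,
    ∑ u ∈ RG δ U (U ^ (4 : ℝ)), ∑ v ∈ RG δ U (U ^ (4 : ℝ)),
      (if ¬ (u = 1 ∧ v = 1) ∧ |Real.log u - Real.log v + z| ≤ θ * Real.log U then 1 / ((u : ℝ) * v) else 0) ≤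
    C * (θ + 1 / Real.log U) := by
  obtain ⟨C, hC, h⟩ := pair_sum (δ := min δ 4) (κ := 4) (lt_min hδ (by norm_num)) (min_le_right _ _)
  refine ⟨C, hC, ?_⟩
  filter_upwards [h, eventually_gt_atTop (1:ℝ)] with T hT hT1 θ hθ z
  rw [← Finset.sum_product' (f := fun u v : ℕ => if ¬ (u = 1 ∧ v = 1) ∧ |Real.log u - Real.log v + z| ≤ θ * Real.log T
    then 1 / ((u : ℝ) * v) else 0), ← Finset.sum_filter]
  refine hT θ z hθ _ fun w hw => ?_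
  rw [Finset.mem_filter, Finset.mem_product] at hw
  obtain ⟨⟨h1, h2⟩, h3, h4⟩ := hw
  obtain ⟨a1, a2⟩ := RG_facts hT1 h1
  obtain ⟨b1, b2⟩ := RG_facts hT1 h2
  exact ⟨a1, b1, a2, b2, fun he => h3 ⟨by rw [he], by rw [he]⟩, h4⟩

end Pool.Agent.Helper7.ES
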